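import Mathlib

/-!
# Core and essential primes of an integer relative to a bound `g`
-/

open Finset
open scoped Classical

namespace Pool.DisjCosets

/-- `p` is essential for `n` if some divisor `p * D` of `n` has `D ≤ g < p * D`. -/
noncomputable def ess (g n : ℕ) : Finset ℕ :=
  n.primeFactors.filter (fun p => ∃ D, p * D ∣ n ∧ D ≤ g ∧ g < p * D)

/-- the part of `n` supported on non-essential primes -/
noncomputable def core (g n : ℕ) : ℕ := ∏ p ∈ n.primeFactors \ ess g n, p ^ n.factorization p

/-- the part of `n` supported on essential primes -/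
noncomputable def rough (g n : ℕ) : ℕ := ∏ p ∈ ess g n, p ^ n.factorization p

theorem ess_subset (g n : ℕ) : ess g n ⊆ n.primeFactors := filter_subset _ _

theorem core_mul_rough {g n : ℕ} (hn : n ≠ 0) : core g n * rough g n = n := by
  rw [core, rough, prod_sdiff (ess_subset g n)]
  exact Nat.prod_factorization_pow_eq_self hn

theorem prime_of_mem_ess {g n p : ℕ} (hp : p ∈ ess g n) : p.Prime :=
  Nat.prime_of_mem_primeFactors (ess_subset g n hp)

theorem dvd_rough_of_mem {g n p : ℕ} (hp : p ∈ ess g n) : p ∣ rough g n := by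
  have h1 : p ∣ p ^ n.factorization p := by
    apply dvd_pow_self
    have := ess_subset g n hp
    rw [← Nat.support_factorization] at this
    exact Finsupp.mem_support_iff.1 this
  exact h1.trans (dvd_prod_of_mem (fun p => p ^ n.factorization p) hp)

theorem mem_ess_of_dvd_rough {g n q : ℕ} (hq : q.Prime) (h : q ∣ rough g n) : q ∈ ess g n := by
  rw [rough] at h
  obtain ⟨p, hp, hqp⟩ := (Nat.Prime.prime hq).exists_mem_finset_dvd h
  have h1 := hq.dvd_of_dvd_pow hqp
  rw [(Nat.prime_dvd_prime_iff_eq hq (prime_of_mem_ess hp)).1 h1]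
  exact hp

theorem notMem_ess_of_dvd_core {g n q : ℕ} (hq : q.Prime) (h : q ∣ core g n) :
    q ∈ n.primeFactors ∧ q ∉ ess g n := by
  rw [core] at h
  obtain ⟨p, hp, hqp⟩ := (Nat.Prime.prime hq).exists_mem_finset_dvd h
  have h1 := hq.dvd_of_dvd_pow hqp
  rw [mem_sdiff] at hp
  rw [(Nat.prime_dvd_prime_iff_eq hq (Nat.prime_of_mem_primeFactors hp.1)).1 h1]
  exact hp

theorem coprime_core_rough {g n : ℕ} : Nat.Coprime (core g n) (rough g n) := by
  rw [Nat.coprime_iff_gcd_eq_one]
  by_contra hne
  obtain ⟨p, hp, hpd⟩ := Nat.exists_prime_and_dvd hne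
  exact (notMem_ess_of_dvd_core hp (hpd.trans (Nat.gcd_dvd_left _ _))).2
    (mem_ess_of_dvd_rough hp (hpd.trans (Nat.gcd_dvd_right _ _)))

theorem core_pos {g n : ℕ} : 0 < core g n := by
  rw [core]
  apply prod_pos
  intro p hp
  exact pow_pos (Nat.prime_of_mem_primeFactors (mem_sdiff.1 hp).1).pos _

theorem rough_pos {g n : ℕ} : 0 < rough g n := by
  rw [rough]
  apply prod_pos
  intro p hp
  exact pow_pos (prime_of_mem_ess hp).pos _

/-- Absorption: a light divisor of the essential part stays light after multiplying with the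
core. -/
theorem mul_core_le {g n D : ℕ} (hn : n ≠ 0) (hD : D ∣ rough g n) (hDg : D ≤ g) :
    D * core g n ≤ g := by
  have key : ∀ X, X ∣ core g n → D * X ≤ g := by
    intro X
    induction X using induction_on_primes with
    | zero => intro _; simp
    | one => intro _; simpa using hDg
    | prime_mul p a hp ih =>
      intro h
      have ha : a ∣ core g n := (Dvd.intro_left _ rfl).trans h
      have h1 := ih ha
      have h2 := notMem_ess_of_dvd_core hp ((Dvd.intro _ rfl).trans h)
      by_contra hlt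
      push Not at hlt
      apply h2.2
      rw [ess, mem_filter]
      refine ⟨h2.1, D * a, ?_, h1, ?_⟩
      · have : D * (p * a) ∣ rough g n * core g n := mul_dvd_mul hD h
        rw [mul_comm (rough g n), core_mul_rough hn] at this
        have e : p * (D * a) = D * (p * a) := by ring
        rw [e]
        exact this
      · have e : p * (D * a) = D * (p * a) := by ring
        rw [e]
        exact hlt
  exact key _ dvd_rfl

theorem core_le {g n : ℕ} (hn : n ≠ 0) (hg : 1 ≤ g) : core g n ≤ g := by
  have := mul_core_le (g := g) hn (one_dvd (rough g n)) hg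
  simpa using this

theorem exists_witness {g n q : ℕ} (hn : n ≠ 0) (hq : q ∈ ess g n) :
    ∃ Y, q * Y ∣ rough g n ∧ Y * core g n ≤ g ∧ g < q * Y := by
  have hqp := prime_of_mem_ess hq
  have hmem := hq
  rw [ess, mem_filter] at hmem
  obtain ⟨hq1, D, hD, hDg, hgD⟩ := hmem
  have hDn : D ∣ core g n * rough g n := by
    rw [core_mul_rough hn]
    exact (Dvd.intro_left _ rfl).trans hD
  have hDpos : 0 < D := by
    rcases Nat.eq_zero_or_pos D with h0 | h0
    · rw [h0] at hgD; omega
    · exact h0
  obtain ⟨X, Y, hX, hY, hXY⟩ := exists_dvd_and_dvd_of_dvd_mul hDn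
  refine ⟨Y, ?_, ?_, ?_⟩
  · -- q * Y ∣ rough
    have h1 : q * Y ∣ core g n * rough g n := by
      rw [core_mul_rough hn]
      refine Dvd.dvd.trans ?_ hD
      rw [hXY]
      exact mul_dvd_mul_left q (Dvd.intro_left _ rfl)
    have h2 : Nat.Coprime (q * Y) (core g n) := by
      apply Nat.Coprime.mul_left
      · rw [Nat.Prime.coprime_iff_not_dvd hqp]
        intro h
        exact (notMem_ess_of_dvd_core hqp h).2 hq
      · exact Nat.Coprime.coprime_dvd_left hY coprime_core_rough.symm
    exact h2.dvd_of_dvd_mul_left h1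
  · apply mul_core_le hn hY
    calc Y ≤ D := Nat.le_of_dvd hDpos (by rw [hXY]; exact Dvd.intro_left _ rfl)
      _ ≤ g := hDg
  · by_contra hle
    push Not at hle
    have h1 : q * Y ∣ rough g n := by
      have h1 : q * Y ∣ core g n * rough g n := by
        rw [core_mul_rough hn]
        refine Dvd.dvd.trans ?_ hD
        rw [hXY]
        exact mul_dvd_mul_left q (Dvd.intro_left _ rfl)
      have h2 : Nat.Coprime (q * Y) (core g n) := by
        apply Nat.Coprime.mul_left
        · rw [Nat.Prime.coprime_iff_not_dvd hqp]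
          intro h
          exact (notMem_ess_of_dvd_core hqp h).2 hq
        · exact Nat.Coprime.coprime_dvd_left hY coprime_core_rough.symm
      exact h2.dvd_of_dvd_mul_left h1
    have h2 := mul_core_le hn h1 hle
    have h3 : q * D ≤ q * Y * core g n := by
      rw [hXY]
      have : X ≤ core g n := Nat.le_of_dvd core_pos hX
      calc q * (X * Y) = q * Y * X := by ring
        _ ≤ q * Y * core g n := Nat.mul_le_mul_left _ this
    omega

theorem core_lt_of_mem_ess {g n q : ℕ} (hn : n ≠ 0) (hq : q ∈ ess g n) : core g n < q := by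
  obtain ⟨Y, _, h2, h3⟩ := exists_witness hn hq
  have h4 : Y * core g n < Y * q := by
    calc Y * core g n ≤ g := h2
      _ < q * Y := h3
      _ = Y * q := mul_comm _ _
  exact Nat.lt_of_mul_lt_mul_left h4

/-- the set of light `Y` whose multiple `p * Y` is a heavy divisor of `n` -/
noncomputable def yset (g n p : ℕ) : Finset ℕ :=
  (Icc 1 g).filter (fun Y => p * Y ∣ n ∧ Y * core g n ≤ g ∧ g < p * Y)

theorem yset_nonempty {g n p : ℕ} (hn : n ≠ 0) (hp : p ∈ ess g n) : (yset g n p).Nonempty := by
  obtain ⟨Y, h1, h2, h3⟩ := exists_witness hn hp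
  refine ⟨Y, ?_⟩
  rw [yset, mem_filter, mem_Icc]
  have hYpos : 0 < Y := by
    rcases Nat.eq_zero_or_pos Y with h0 | h0
    · rw [h0] at h3; omega
    · exact h0
  have hc : 0 < core g n := core_pos
  refine ⟨⟨hYpos, ?_⟩, ?_, h2, h3⟩
  · calc Y = Y * 1 := (mul_one _).symm
      _ ≤ Y * core g n := Nat.mul_le_mul_left _ hc
      _ ≤ g := h2
  · exact h1.trans (by
      conv_rhs => rw [← core_mul_rough (g := g) hn]
      exact Dvd.intro_left _ rfl)

/-- the essential primes up to `g` -/
noncomputable def sm (g n : ℕ) : Finset ℕ := (ess g n).filter (· ≤ g)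

theorem mem_sm {g n p : ℕ} : p ∈ sm g n ↔ p ∈ ess g n ∧ p ≤ g := by
  rw [sm, mem_filter]

/-- high primes have many witnesses -/
theorem exists_witness_containing {g n p z : ℕ} (hn : n ≠ 0) (hp : p ∈ sm g n)
    (hz : z ∈ sm g n) (hzp : z ≠ p)
    (hhigh : g < ∏ q ∈ (sm g n).filter (· ≤ p), q) :
    ∃ X ⊆ (sm g n).erase p, z ∈ X ∧ ∏ q ∈ X, q ∈ yset g n p := by
  set S := sm g n with hS
  have hprime : ∀ q ∈ S, q.Prime := fun q hq => prime_of_mem_ess (mem_sm.1 hq).1
  set R := (S.filter (· < p)).erase z with hR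
  have hRS : R ⊆ S := (erase_subset _ _).trans (filter_subset _ _)
  have hzR : z ∉ R := notMem_erase _ _
  set 𝒲 := R.powerset.filter (fun W => g < p * (z * ∏ q ∈ W, q)) with h𝒲
  have hRmem : R ∈ 𝒲 := by
    rw [h𝒲, mem_filter, mem_powerset]
    refine ⟨Subset.refl _, lt_of_lt_of_le hhigh ?_⟩
    have h1 : S.filter (· ≤ p) = insert p (S.filter (· < p)) := by
      ext q
      simp only [mem_filter, mem_insert]
      constructor
      · rintro ⟨h1, h2⟩
        rcases h2.lt_or_eq with h3 | h3
        · exact Or.inr ⟨h1, h3⟩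
        · exact Or.inl h3
      · rintro (h1 | h1)
        · rw [h1]; exact ⟨hp, le_refl _⟩
        · exact ⟨h1.1, h1.2.le⟩
    rw [h1, prod_insert (by simp)]
    apply Nat.mul_le_mul_left
    by_cases hzlt : z < p
    · have : z ∈ S.filter (· < p) := mem_filter.2 ⟨hz, hzlt⟩
      rw [hR, mul_prod_erase _ (fun q => q) this]
    · have : z ∉ S.filter (· < p) := fun h => hzlt (mem_filter.1 h).2
      rw [hR, erase_eq_of_notMem this]
      exact Nat.le_mul_of_pos_left _ (hprime z hz).pos
  obtain ⟨W, hW, hWmin⟩ := exists_min_image 𝒲 Finset.card ⟨R, hRmem⟩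
  rw [h𝒲, mem_filter, mem_powerset] at hW
  obtain ⟨hWR, hWg⟩ := hW
  have hzW : z ∉ W := fun h => hzR (hWR h)
  have hpW : p ∉ W := by
    intro h
    have := mem_filter.1 (mem_of_mem_erase (hWR h))
    exact lt_irrefl _ this.2
  have hXsub : insert z W ⊆ S.erase p := by
    intro q hq
    rw [mem_insert] at hq
    rcases hq with h | h
    · rw [h]; exact mem_erase.2 ⟨hzp, hz⟩
    · exact mem_erase.2 ⟨fun h' => hpW (h' ▸ h), hRS (hWR h)⟩
  refine ⟨insert z W, hXsub, mem_insert_self _ _, ?_⟩
  have hXS : insert z W ⊆ S := hXsub.trans (erase_subset _ _)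
  have hprod : ∏ q ∈ insert z W, q = z * ∏ q ∈ W, q := prod_insert hzW
  have hXle : ∏ q ∈ insert z W, q ≤ g := by
    rw [hprod]
    rcases W.eq_empty_or_nonempty with hWe | ⟨w, hw⟩
    · rw [hWe]; simpa using (mem_sm.1 hz).2
    · have h1 : W.erase w ∉ 𝒲 := by
        intro h
        have h2 := hWmin _ h
        have h3 := card_erase_lt_of_mem hw
        omega
      have h2 : p * (z * ∏ q ∈ W.erase w, q) ≤ g := by
        by_contra h3
        push Not at h3
        apply h1
        rw [h𝒲, mem_filter, mem_powerset]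
        exact ⟨(erase_subset _ _).trans hWR, h3⟩
      have h3 : w < p := (mem_filter.1 (mem_of_mem_erase (hWR hw))).2
      calc z * ∏ q ∈ W, q = w * (z * ∏ q ∈ W.erase w, q) := by
            rw [← mul_prod_erase W (fun q => q) hw]; ring
        _ ≤ p * (z * ∏ q ∈ W.erase w, q) := Nat.mul_le_mul_right _ h3.le
        _ ≤ g := h2
  have hXpos : 0 < ∏ q ∈ insert z W, q := prod_pos (fun q hq => (hprime q (hXS hq)).pos)
  have hXrough : ∏ q ∈ insert z W, q ∣ rough g n := by
    apply Finset.prod_primes_dvd
    · intro q hq; exact (hprime q (hXS hq)).prime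
    · intro q hq; exact dvd_rough_of_mem (mem_sm.1 (hXS hq)).1
  rw [yset, mem_filter, mem_Icc]
  refine ⟨⟨hXpos, hXle⟩, ?_, mul_core_le hn hXrough hXle, ?_⟩
  · have hpX : p ∉ insert z W := fun h => (mem_erase.1 (hXsub h)).1 rfl
    rw [← prod_insert (f := fun q => q) hpX]
    apply Finset.prod_primes_dvd
    · intro q hq
      rw [mem_insert] at hq
      rcases hq with h | h
      · rw [h]; exact (hprime p hp).prime
      · exact (hprime q (hXS h)).prime
    · intro q hq
      rw [mem_insert] at hq
      have aux : ∀ r ∈ S, r ∣ n := fun r hr => Nat.dvd_of_mem_primeFactors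
        (ess_subset g n (mem_sm.1 hr).1)
      rcases hq with h | h
      · rw [h]; exact aux p hp
      · exact aux q (hXS h)
  · rw [hprod]; exact hWg

theorem card_yset_high {g n p L : ℕ} (hn : n ≠ 0) (hp : p ∈ sm g n)
    (hL : ∀ X ⊆ sm g n, ∏ q ∈ X, q ≤ g → X.card ≤ L)
    (hhigh : g < ∏ q ∈ (sm g n).filter (· ≤ p), q) :
    ((sm g n).erase p).card ≤ L * (yset g n p).card := by
  set S := sm g n with hS
  have hprime : ∀ q ∈ S, q.Prime := fun q hq => prime_of_mem_ess (mem_sm.1 hq).1
  have hex : ∀ z ∈ S.erase p, ∃ X ⊆ S.erase p, z ∈ X ∧ ∏ q ∈ X, q ∈ yset g n p := by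
    intro z hz
    exact exists_witness_containing hn hp (mem_of_mem_erase hz) (mem_erase.1 hz).1 hhigh
  choose! X hX1 hX2 hX3 using hex
  apply Finset.card_le_mul_card_image_of_maps_to (f := fun z => ∏ q ∈ X z, q) hX3
  intro Y _
  rcases ((S.erase p).filter (fun z => ∏ q ∈ X z, q = Y)).eq_empty_or_nonempty with he | ⟨z0, hz0⟩
  · rw [he]; simp
  · rw [mem_filter] at hz0
    have hcard : (X z0).card ≤ L := by
      apply hL (X z0) ((hX1 z0 hz0.1).trans (erase_subset _ _))
      have := hX3 z0 hz0.1
      rw [yset, mem_filter, mem_Icc] at this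
      exact this.1.2
    refine le_trans (card_le_card ?_) hcard
    intro z hz
    rw [mem_filter] at hz
    have hzdvd : z ∣ ∏ q ∈ X z0, q := by
      rw [hz0.2, ← hz.2]
      exact dvd_prod_of_mem (fun q => q) (hX2 z hz.1)
    have hzp := hprime z (mem_of_mem_erase hz.1)
    obtain ⟨r, hr, hzr⟩ := (Nat.Prime.prime hzp).exists_mem_finset_dvd hzdvd
    have hrp := hprime r (mem_of_mem_erase (hX1 z0 hz0.1 hr))
    rw [(Nat.prime_dvd_prime_iff_eq hzp hrp).1 hzr]
    exact hr

/-- the Banzhaf type bound -/
theorem sum_inv_card_yset_le {g n L : ℕ} (hn : n ≠ 0)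
    (hL : ∀ X ⊆ sm g n, ∏ q ∈ X, q ≤ g → X.card ≤ L) :
    ∑ p ∈ sm g n, (1 : ℚ) / (yset g n p).card ≤ 2 * L := by
  set S := sm g n with hS
  rcases S.eq_empty_or_nonempty with hSe | hSne
  · rw [hSe]; simp
  have hpos : ∀ p ∈ S, 1 ≤ (yset g n p).card := fun p hp =>
    card_pos.2 (yset_nonempty hn (mem_sm.1 hp).1)
  set low := S.filter (fun p => ∏ q ∈ S.filter (· ≤ p), q ≤ g) with hlow
  have hlowS : low ⊆ S := filter_subset _ _
  -- the minimum is low
  have hmin : S.min' hSne ∈ low := by
    rw [hlow, mem_filter]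
    refine ⟨min'_mem _ _, ?_⟩
    have : S.filter (· ≤ S.min' hSne) = {S.min' hSne} := by
      ext q
      simp only [mem_filter, mem_singleton]
      constructor
      · rintro ⟨h1, h2⟩
        exact le_antisymm h2 (min'_le S q h1)
      · intro h
        rw [h]
        exact ⟨min'_mem _ _, le_refl _⟩
    rw [this, prod_singleton]
    exact (mem_sm.1 (min'_mem S hSne)).2
  have hlowcard : low.card ≤ L := by
    have hne : low.Nonempty := ⟨_, hmin⟩
    have hmax := max'_mem low hne
    have h1 : low ⊆ S.filter (· ≤ low.max' hne) := by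
      intro q hq
      exact mem_filter.2 ⟨hlowS hq, le_max' _ _ hq⟩
    have h2 := (mem_filter.1 hmax).2
    exact (card_le_card h1).trans (hL _ (filter_subset _ _) h2)
  have hsplit : ∑ p ∈ S, (1 : ℚ) / (yset g n p).card =
      ∑ p ∈ low, (1 : ℚ) / (yset g n p).card + ∑ p ∈ S \ low, (1 : ℚ) / (yset g n p).card := by
    rw [add_comm, sum_sdiff hlowS]
  have hlowsum : ∑ p ∈ low, (1 : ℚ) / (yset g n p).card ≤ L := by
    calc ∑ p ∈ low, (1 : ℚ) / (yset g n p).card ≤ ∑ _p ∈ low, (1 : ℚ) := by
          apply sum_le_sum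
          intro p hp
          rw [div_le_one]
          · exact_mod_cast hpos p (hlowS hp)
          · exact_mod_cast hpos p (hlowS hp)
      _ = low.card := by simp
      _ ≤ L := by exact_mod_cast hlowcard
  have hhighsum : ∑ p ∈ S \ low, (1 : ℚ) / (yset g n p).card ≤ L := by
    rcases (S \ low).eq_empty_or_nonempty with he | ⟨p0, hp0⟩
    · rw [he]; simp
    have hScard : 2 ≤ S.card := by
      have h1 : ({S.min' hSne, p0} : Finset ℕ) ⊆ S := by
        intro q hq
        simp only [mem_insert, mem_singleton] at hq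
        rcases hq with h | h
        · rw [h]; exact min'_mem _ _
        · rw [h]; exact (mem_sdiff.1 hp0).1
      have h2 : S.min' hSne ≠ p0 := fun h => (mem_sdiff.1 hp0).2 (h ▸ hmin)
      have h3 := card_le_card h1
      rwa [card_pair h2] at h3
    have hb : ∀ p ∈ S \ low, (1 : ℚ) / (yset g n p).card ≤ (L : ℚ) / ((S.card : ℚ) - 1) := by
      intro p hp
      rw [mem_sdiff] at hp
      have hhigh : g < ∏ q ∈ S.filter (· ≤ p), q := by
        by_contra h
        push Not at h
        exact hp.2 (mem_filter.2 ⟨hp.1, h⟩)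
      have h1 := card_yset_high hn hp.1 hL hhigh
      rw [card_erase_of_mem hp.1] at h1
      have h2 : (0 : ℚ) < (yset g n p).card := by exact_mod_cast hpos p hp.1
      have h3 : (0 : ℚ) < (S.card : ℚ) - 1 := by
        have : (2 : ℚ) ≤ S.card := by exact_mod_cast hScard
        linarith
      rw [div_le_div_iff₀ h2 h3, one_mul]
      have h4 : ((S.card - 1 : ℕ) : ℚ) ≤ ((L * (yset g n p).card : ℕ) : ℚ) := by exact_mod_cast h1
      rw [Nat.cast_sub (by omega)] at h4
      push_cast at h4
      exact h4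
    calc ∑ p ∈ S \ low, (1 : ℚ) / (yset g n p).card
        ≤ ∑ _p ∈ S \ low, (L : ℚ) / ((S.card : ℚ) - 1) := sum_le_sum hb
      _ = (S \ low).card * ((L : ℚ) / ((S.card : ℚ) - 1)) := by rw [sum_const, nsmul_eq_mul]
      _ ≤ ((S.card : ℚ) - 1) * ((L : ℚ) / ((S.card : ℚ) - 1)) := by
          apply mul_le_mul_of_nonneg_right
          · have h1 : (S \ low).card + low.card = S.card := card_sdiff_add_card_eq_card hlowS
            have h2 : 1 ≤ low.card := card_pos.2 ⟨_, hmin⟩
            have h3 : ((S \ low).card : ℚ) + low.card = S.card := by exact_mod_cast h1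
            have h4 : (1 : ℚ) ≤ low.card := by exact_mod_cast h2
            linarith
          · apply div_nonneg
            · positivity
            · have : (2 : ℚ) ≤ S.card := by exact_mod_cast hScard
              linarith
      _ = L := by
          have : (S.card : ℚ) - 1 ≠ 0 := by
            have : (2 : ℚ) ≤ S.card := by exact_mod_cast hScard
            linarith
          field_simp
  rw [hsplit]
  linarith

end Pool.DisjCosets
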