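import Pool.Agent.Work.MP_3175b5_al_h54.Arith

/-!
# Counting: from independent sets to the full bound
-/

open Finset
open scoped Classical

namespace Pool.DisjCosets

variable {ι : Type*}

/-- Greedy independent set. -/
theorem exists_indep (adj : ι → ι → Prop) (hsymm : ∀ i j, adj i j → adj j i) (D : ℕ) :
    ∀ (n : ℕ) (F : Finset ι), F.card = n →
    (∀ F' ⊆ F, F'.Nonempty → ∃ i ∈ F', (F'.filter (fun j => j ≠ i ∧ adj i j)).card ≤ D) →
    ∃ I ⊆ F, (∀ i ∈ I, ∀ j ∈ I, i ≠ j → ¬ adj i j) ∧ F.card ≤ (D + 1) * I.card := by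
  intro n
  induction n using Nat.strong_induction_on with
  | _ n IH =>
  intro F hF hdeg
  rcases F.eq_empty_or_nonempty with hFe | hFne
  · exact ⟨∅, by simp, by simp, by simp [hFe]⟩
  obtain ⟨i, hi, hiD⟩ := hdeg F (Subset.refl _) hFne
  set F1 := F.filter (fun j => j ≠ i ∧ ¬ adj i j) with hF1
  have hF1F : F1 ⊆ F := filter_subset _ _
  have hlt : F1.card < n := by
    rw [← hF]
    apply card_lt_card
    refine ⟨hF1F, fun h => ?_⟩
    have := h hi
    rw [hF1, mem_filter] at this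
    exact this.2.1 rfl
  obtain ⟨I1, hI1, hI1ind, hI1card⟩ := IH F1.card hlt F1 rfl
    (fun F' hF' hne => hdeg F' (hF'.trans hF1F) hne)
  have hiI1 : i ∉ I1 := by
    intro h
    have := hI1 h
    rw [hF1, mem_filter] at this
    exact this.2.1 rfl
  refine ⟨insert i I1, ?_, ?_, ?_⟩
  · intro j hj
    rw [mem_insert] at hj
    rcases hj with h | h
    · rw [h]; exact hi
    · exact hF1F (hI1 h)
  · intro j hj l hl hjl
    rw [mem_insert] at hj hl
    rcases hj with h | h <;> rcases hl with h' | h'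
    · exact absurd (h.trans h'.symm) hjl
    · rw [h]
      have := hI1 h'
      rw [hF1, mem_filter] at this
      exact this.2.2
    · rw [h']
      have := hI1 h
      rw [hF1, mem_filter] at this
      exact fun hc => this.2.2 (hsymm _ _ hc)
    · exact hI1ind j h l h' hjl
  · rw [card_insert_of_notMem hiI1]
    have hcov : F ⊆ insert i (F.filter (fun j => j ≠ i ∧ adj i j) ∪ F1) := by
      intro j hj
      rw [mem_insert, mem_union]
      by_cases hji : j = i
      · exact Or.inl hji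
      · right
        by_cases ha : adj i j
        · exact Or.inl (mem_filter.2 ⟨hj, hji, ha⟩)
        · exact Or.inr (mem_filter.2 ⟨hj, hji, ha⟩)
    have h1 := card_le_card hcov
    have h2 := card_insert_le i (F.filter (fun j => j ≠ i ∧ adj i j) ∪ F1)
    have h3 := card_union_le (F.filter (fun j => j ≠ i ∧ adj i j)) F1
    calc F.card ≤ D + F1.card + 1 := by omega
      _ ≤ D + (D + 1) * I1.card + 1 := by omega
      _ = (D + 1) * (I1.card + 1) := by ring

/-- Degree bound in a class. -/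
theorem exists_small_degree (g c L : ℕ) (n : ι → ℕ) (F : Finset ι) (hF : F.Nonempty)
    (hn : ∀ i ∈ F, n i ≠ 0)
    (hgcd : ∀ i ∈ F, ∀ j ∈ F, i ≠ j → Nat.gcd (n i) (n j) ≤ g)
    (hc : ∀ i ∈ F, 2 ^ c ≤ core g (n i))
    (hL : ∀ i ∈ F, ∀ X ⊆ sm g (n i), ∏ q ∈ X, q ≤ g → X.card ≤ L) :
    ∃ i ∈ F, (F.filter (fun j => j ≠ i ∧ ¬ Nat.Coprime (rough g (n i)) (rough g (n j)))).card ≤
      g / 2 ^ c * (2 * L) := by
  set V : ℕ → Finset ι := fun p => F.filter (fun j => p ∈ sm g (n j)) with hV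
  -- sum over V p of the number of witnesses
  have hVy : ∀ p, ∑ i ∈ V p, (yset g (n i) p).card ≤ g / 2 ^ c := by
    intro p
    rw [← card_biUnion]
    · have : (V p).biUnion (fun i => yset g (n i) p) ⊆ Icc 1 (g / 2 ^ c) := by
        intro Y hY
        rw [mem_biUnion] at hY
        obtain ⟨i, hi, hY⟩ := hY
        rw [yset, mem_filter, mem_Icc] at hY
        rw [mem_Icc]
        refine ⟨hY.1.1, ?_⟩
        rw [Nat.le_div_iff_mul_le (by positivity)]
        exact (Nat.mul_le_mul_left _ (hc i (mem_filter.1 hi).1)).trans hY.2.2.1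
      have h2 := card_le_card this
      rwa [Nat.card_Icc, Nat.add_sub_cancel] at h2
    · intro i hi j hj hij
      rw [Function.onFun, disjoint_left]
      intro Y hYi hYj
      rw [yset, mem_filter] at hYi hYj
      have h1 : p * Y ∣ Nat.gcd (n i) (n j) := Nat.dvd_gcd hYi.2.1 hYj.2.1
      have hiF := (mem_filter.1 (mem_coe.1 hi)).1
      have hjF := (mem_filter.1 (mem_coe.1 hj)).1
      have h2 := hgcd i hiF j hjF hij
      have h3 : p * Y ≤ Nat.gcd (n i) (n j) :=
        Nat.le_of_dvd (Nat.gcd_pos_of_pos_left _ (Nat.pos_of_ne_zero (hn i hiF))) h1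
      have h4 := hYi.2.2.2
      omega
  -- degree in terms of V
  have hdeg : ∀ i ∈ F,
      (F.filter (fun j => j ≠ i ∧ ¬ Nat.Coprime (rough g (n i)) (rough g (n j)))).card ≤
        ∑ p ∈ sm g (n i), (V p).card := by
    intro i hi
    refine le_trans (card_le_card ?_) card_biUnion_le
    intro j hj
    rw [mem_filter] at hj
    obtain ⟨hjF, hji, hncop⟩ := hj
    rw [Nat.coprime_iff_gcd_eq_one] at hncop
    obtain ⟨p, hp, hpd⟩ := Nat.exists_prime_and_dvd hncop
    have h1 : p ∣ rough g (n i) := hpd.trans (Nat.gcd_dvd_left _ _)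
    have h2 : p ∣ rough g (n j) := hpd.trans (Nat.gcd_dvd_right _ _)
    have h3 := mem_ess_of_dvd_rough hp h1
    have h4 := mem_ess_of_dvd_rough hp h2
    have h5 : p ∣ Nat.gcd (n i) (n j) :=
      Nat.dvd_gcd (Nat.dvd_of_mem_primeFactors (ess_subset _ _ h3))
        (Nat.dvd_of_mem_primeFactors (ess_subset _ _ h4))
    have h6 : p ≤ g := (Nat.le_of_dvd
      (Nat.gcd_pos_of_pos_left _ (Nat.pos_of_ne_zero (hn i hi))) h5).trans
      (hgcd i hi j hjF (fun h => hji h.symm))
    rw [mem_biUnion]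
    exact ⟨p, mem_sm.2 ⟨h3, h6⟩, mem_filter.2 ⟨hjF, mem_sm.2 ⟨h4, h6⟩⟩⟩
  -- sum of the squares
  set P : Finset ℕ := F.biUnion (fun i => sm g (n i)) with hP
  have hswap : ∀ f : ℕ → ι → ℚ, ∑ i ∈ F, ∑ p ∈ sm g (n i), f p i =
      ∑ p ∈ P, ∑ i ∈ V p, f p i := by
    intro f
    apply sum_comm'
    intro i p
    constructor
    · rintro ⟨hi, hp⟩
      exact ⟨mem_filter.2 ⟨hi, hp⟩, mem_biUnion.2 ⟨i, hi, hp⟩⟩
    · rintro ⟨hi, _⟩
      exact mem_filter.1 hi
  have hcs : ∀ p ∈ P, ((V p).card : ℚ) ^ 2 ≤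
      ((g / 2 ^ c : ℕ) : ℚ) * ∑ i ∈ V p, (1 : ℚ) / (yset g (n i) p).card := by
    intro p _
    have hpos : ∀ i ∈ V p, (0 : ℚ) < (yset g (n i) p).card := by
      intro i hi
      have h1 := (mem_filter.1 hi)
      have : 0 < (yset g (n i) p).card :=
        card_pos.2 (yset_nonempty (hn i h1.1) (mem_sm.1 h1.2).1)
      exact_mod_cast this
    have h1 := Finset.sum_sq_le_sum_mul_sum_of_sq_le_mul (V p) (r := fun _ => (1 : ℚ))
      (f := fun i => ((yset g (n i) p).card : ℚ)) (g := fun i => (1 : ℚ) / (yset g (n i) p).card)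
      (fun i hi => (hpos i hi).le) (fun i hi => by have := hpos i hi; positivity)
      (fun i hi => by have := (hpos i hi).ne'; rw [mul_one_div_cancel this]; norm_num)
    have h2 : (∑ _i ∈ V p, (1 : ℚ)) = (V p).card := by simp
    rw [h2] at h1
    refine h1.trans ?_
    apply mul_le_mul_of_nonneg_right
    · have := hVy p
      exact_mod_cast this
    · apply sum_nonneg
      intro i hi
      have := hpos i hi
      positivity
  have htotal : (∑ i ∈ F, ∑ p ∈ sm g (n i), ((V p).card : ℚ)) ≤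
      F.card * ((g / 2 ^ c * (2 * L) : ℕ) : ℚ) := by
    rw [hswap (fun p _ => ((V p).card : ℚ))]
    have h1 : ∀ p ∈ P, (∑ _i ∈ V p, ((V p).card : ℚ)) = ((V p).card : ℚ) ^ 2 := by
      intro p _
      rw [sum_const, nsmul_eq_mul, sq]
    rw [sum_congr rfl h1]
    calc ∑ p ∈ P, ((V p).card : ℚ) ^ 2
        ≤ ∑ p ∈ P, ((g / 2 ^ c : ℕ) : ℚ) * ∑ i ∈ V p, (1 : ℚ) / (yset g (n i) p).card :=
          sum_le_sum hcs
      _ = ((g / 2 ^ c : ℕ) : ℚ) * ∑ i ∈ F, ∑ p ∈ sm g (n i), (1 : ℚ) / (yset g (n i) p).card := by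
          rw [← mul_sum, hswap (fun p i => (1 : ℚ) / (yset g (n i) p).card)]
      _ ≤ ((g / 2 ^ c : ℕ) : ℚ) * ∑ _i ∈ F, (2 * L : ℚ) := by
          apply mul_le_mul_of_nonneg_left
          · exact sum_le_sum (fun i hi => sum_inv_card_yset_le (hn i hi) (hL i hi))
          · positivity
      _ = F.card * ((g / 2 ^ c * (2 * L) : ℕ) : ℚ) := by
          rw [sum_const, nsmul_eq_mul]
          push_cast
          ring
  by_contra hcon
  push Not at hcon
  have h1 : ∑ i ∈ F, (g / 2 ^ c * (2 * L) : ℕ) <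
      ∑ i ∈ F, ∑ p ∈ sm g (n i), (V p).card :=
    sum_lt_sum_of_nonempty hF (fun i hi => lt_of_lt_of_le (hcon i hi) (hdeg i hi))
  rw [sum_const, smul_eq_mul] at h1
  have h2 : ((F.card * (g / 2 ^ c * (2 * L)) : ℕ) : ℚ) <
      ((∑ i ∈ F, ∑ p ∈ sm g (n i), (V p).card : ℕ) : ℚ) := by exact_mod_cast h1
  push_cast at h2 htotal
  linarith

/-- The arithmetic bound. The hypothesis `hS` is what the group theory provides. -/
theorem card_le_of_indep (g : ℕ) (hg : 1 ≤ g) (n : ι → ℕ) (s : Finset ι)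
    (hn : ∀ i ∈ s, n i ≠ 0)
    (hgcd : ∀ i ∈ s, ∀ j ∈ s, i ≠ j → Nat.gcd (n i) (n j) ≤ g)
    (hS : ∀ (I : Finset ι) (T : ℕ) (κ m : ι → ℕ), I ⊆ s →
      (∀ i ∈ I, n i = κ i * m i) → (∀ i ∈ I, κ i ≤ T) →
      (∀ i ∈ I, ∀ p, p.Prime → p ∣ m i → T < p) →
      (∀ i ∈ I, ∀ j ∈ I, i ≠ j → Nat.Coprime (m i) (m j)) → I.card ≤ T) :
    s.card ≤ 5 * g + 4 * g * ∑ c ∈ range (Nat.log 2 g), Nat.log 2 g / (c + 1) := by
  set Λ := Nat.log 2 g with hΛ
  -- tight indices
  set tight := s.filter (fun i => ∃ q ∈ ess g (n i), q < 2 * core g (n i)) with htight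
  have htightcard : tight.card ≤ g := by
    have hex : ∀ i ∈ tight, ∃ x, x ∣ n i ∧ g < x ∧ x < 2 * g := by
      intro i hi
      rw [htight, mem_filter] at hi
      obtain ⟨his, q, hq, hq2⟩ := hi
      obtain ⟨Y, h1, h2, h3⟩ := exists_witness (hn i his) hq
      refine ⟨q * Y, h1.trans ?_, h3, ?_⟩
      · conv_rhs => rw [← core_mul_rough (g := g) (hn i his)]
        exact Dvd.intro_left _ rfl
      · have hY : 0 < Y := by
          rcases Nat.eq_zero_or_pos Y with h0 | h0
          · rw [h0] at h3; omega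
          · exact h0
        calc q * Y < 2 * core g (n i) * Y := Nat.mul_lt_mul_of_pos_right hq2 hY
          _ = 2 * (Y * core g (n i)) := by ring
          _ ≤ 2 * g := by omega
    choose! x hx using hex
    have h1 : tight.card ≤ (Ioo g (2 * g)).card := by
      apply card_le_card_of_injOn x
      · intro i hi
        rw [mem_coe] at hi ⊢
        rw [mem_Ioo]
        exact (hx i hi).2
      · intro i hi j hj hij
        rw [mem_coe] at hi hj
        by_contra hne
        have hi' := (hx i hi)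
        have hj' := (hx j hj)
        have his := (mem_filter.1 hi).1
        have hjs := (mem_filter.1 hj).1
        have h2 : x i ∣ Nat.gcd (n i) (n j) := Nat.dvd_gcd hi'.1 (by rw [hij]; exact hj'.1)
        have h3 : x i ≤ Nat.gcd (n i) (n j) :=
          Nat.le_of_dvd (Nat.gcd_pos_of_pos_left _ (Nat.pos_of_ne_zero (hn i his))) h2
        have h4 := hgcd i his j hjs hne
        omega
    rw [Nat.card_Ioo] at h1
    omega
  -- classes
  set cls : ℕ → Finset ι := fun c => (s \ tight).filter (fun i => Nat.log 2 (core g (n i)) = c)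
    with hcls
  have hcover : s \ tight ⊆ (range (Λ + 1)).biUnion cls := by
    intro i hi
    rw [mem_biUnion]
    refine ⟨Nat.log 2 (core g (n i)), ?_, mem_filter.2 ⟨hi, rfl⟩⟩
    rw [mem_range]
    have : core g (n i) ≤ g := core_le (hn i (mem_sdiff.1 hi).1) hg
    have := Nat.log_mono_right (b := 2) this
    omega
  have hclscard : ∀ c, (cls c).card ≤ 4 * g * (Λ / (c + 1)) + (2 ^ (c + 1) - 1) := by
    intro c
    have hmem : ∀ i ∈ cls c, i ∈ s ∧ 2 ^ c ≤ core g (n i) ∧ core g (n i) < 2 ^ (c + 1) ∧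
        ∀ q ∈ ess g (n i), 2 ^ (c + 1) ≤ q := by
      intro i hi
      rw [hcls, mem_filter, mem_sdiff] at hi
      obtain ⟨⟨his, hit⟩, hlog⟩ := hi
      have hcpos : core g (n i) ≠ 0 := core_pos.ne'
      have h1 : 2 ^ c ≤ core g (n i) := by
        rw [← hlog]; exact Nat.pow_log_le_self 2 hcpos
      have h2 : core g (n i) < 2 ^ (c + 1) := by
        rw [← hlog]; exact Nat.lt_pow_succ_log_self (by norm_num) _
      refine ⟨his, h1, h2, ?_⟩
      intro q hq
      by_contra hlt
      push Not at hlt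
      apply hit
      rw [htight, mem_filter]
      refine ⟨his, q, hq, ?_⟩
      rw [pow_succ] at hlt
      omega
    have hLcls : ∀ i ∈ cls c, ∀ X ⊆ sm g (n i), ∏ q ∈ X, q ≤ g → X.card ≤ Λ / (c + 1) := by
      intro i hi X hX hprod
      have hq := (hmem i hi).2.2.2
      have h1 : (2 ^ (c + 1)) ^ X.card ≤ ∏ q ∈ X, q :=
        Finset.pow_card_le_prod X (fun q => q) _ (fun q hqX => hq q (mem_sm.1 (hX hqX)).1)
      have h2 : 2 ^ ((c + 1) * X.card) ≤ g := by
        rw [pow_mul]; exact h1.trans hprod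
      have h3 : (c + 1) * X.card ≤ Λ := by
        rw [hΛ]
        exact Nat.le_log_of_pow_le (by norm_num) h2
      rw [Nat.le_div_iff_mul_le (by omega), mul_comm]
      exact h3
    obtain ⟨I, hI, hIind, hIcard⟩ := exists_indep
      (fun i j => ¬ Nat.Coprime (rough g (n i)) (rough g (n j)))
      (fun i j h h' => h (Nat.Coprime.symm h')) (g / 2 ^ c * (2 * (Λ / (c + 1))))
      (cls c).card (cls c) rfl
      (by
        intro F' hF' hne
        obtain ⟨i, hi, hid⟩ := exists_small_degree g c (Λ / (c + 1)) n F' hne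
          (fun i hi => hn i (hmem i (hF' hi)).1)
          (fun i hi j hj hij => hgcd i (hmem i (hF' hi)).1 j (hmem j (hF' hj)).1 hij)
          (fun i hi => (hmem i (hF' hi)).2.1)
          (fun i hi => hLcls i (hF' hi))
        refine ⟨i, hi, ?_⟩
        convert hid)
    have hIT : I.card ≤ 2 ^ (c + 1) - 1 := by
      apply hS I (2 ^ (c + 1) - 1) (fun i => core g (n i)) (fun i => rough g (n i))
      · exact fun i hi => (hmem i (hI hi)).1
      · exact fun i hi => (core_mul_rough (hn i (hmem i (hI hi)).1)).symm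
      · intro i hi
        have := (hmem i (hI hi)).2.2.1
        show core g (n i) ≤ _
        omega
      · intro i hi p hp hpd
        have h1 := (hmem i (hI hi)).2.2.2 p (mem_ess_of_dvd_rough hp hpd)
        have h2 : 0 < 2 ^ (c + 1) := by positivity
        omega
      · intro i hi j hj hij
        have := hIind i hi j hj hij
        push Not at this
        exact this
    calc (cls c).card ≤ (g / 2 ^ c * (2 * (Λ / (c + 1))) + 1) * I.card := hIcard
      _ ≤ (g / 2 ^ c * (2 * (Λ / (c + 1))) + 1) * (2 ^ (c + 1) - 1) :=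
          Nat.mul_le_mul_left _ hIT
      _ = g / 2 ^ c * (2 * (Λ / (c + 1))) * (2 ^ (c + 1) - 1) + (2 ^ (c + 1) - 1) := by ring
      _ ≤ g / 2 ^ c * (2 * (Λ / (c + 1))) * 2 ^ (c + 1) + (2 ^ (c + 1) - 1) := by
          apply Nat.add_le_add_right
          apply Nat.mul_le_mul_left
          exact Nat.sub_le _ _
      _ = (g / 2 ^ c * 2 ^ c) * (4 * (Λ / (c + 1))) + (2 ^ (c + 1) - 1) := by
          rw [pow_succ]; ring
      _ ≤ g * (4 * (Λ / (c + 1))) + (2 ^ (c + 1) - 1) := by
          apply Nat.add_le_add_right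
          apply Nat.mul_le_mul_right
          exact Nat.div_mul_le_self g (2 ^ c)
      _ = 4 * g * (Λ / (c + 1)) + (2 ^ (c + 1) - 1) := by ring
  -- sum of the geometric terms
  have hgeo : ∑ c ∈ range (Λ + 1), (2 ^ (c + 1) - 1) ≤ 4 * g := by
    have h1 : ∀ k : ℕ, ∑ c ∈ range k, (2 ^ (c + 1) - 1) ≤ 2 ^ (k + 1) := by
      intro k
      induction k with
      | zero => simp
      | succ k ih =>
        rw [sum_range_succ]
        have : 2 ^ (k + 1 + 1) = 2 ^ (k + 1) + 2 ^ (k + 1) := by rw [pow_succ 2 (k + 1)]; ring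
        omega
    refine (h1 _).trans ?_
    have h2 : 2 ^ Λ ≤ g := Nat.pow_log_le_self 2 (by omega)
    calc 2 ^ (Λ + 1 + 1) = 4 * 2 ^ Λ := by rw [pow_succ, pow_succ]; ring
      _ ≤ 4 * g := Nat.mul_le_mul_left _ h2
  have hs1 : s.card ≤ tight.card + (s \ tight).card := by
    have h1 : tight ⊆ s := filter_subset _ _
    have := card_sdiff_add_card_eq_card h1
    omega
  have hs2 : (s \ tight).card ≤ ∑ c ∈ range (Λ + 1), (cls c).card :=
    (card_le_card hcover).trans card_biUnion_le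
  have hs3 : ∑ c ∈ range (Λ + 1), (cls c).card ≤
      ∑ c ∈ range (Λ + 1), (4 * g * (Λ / (c + 1)) + (2 ^ (c + 1) - 1)) :=
    sum_le_sum (fun c _ => hclscard c)
  rw [sum_add_distrib, ← mul_sum, sum_range_succ (fun c => Λ / (c + 1))] at hs3
  have h0 : Λ / (Λ + 1) = 0 := Nat.div_eq_of_lt (by omega)
  rw [h0, add_zero] at hs3
  omega

end Pool.DisjCosets
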