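import Pool.Agent.Work.MP_3175b5_al_h54.Group

/-!
# The weighted inequality with one exceptional index
-/

open Finset
open scoped Pointwise Classical

namespace Pool.DisjCosets

variable {ι : Type*}

/-- The weighted inequality with one exceptional index `i`: no bound on `κ i` is needed. -/
theorem key_exc {G : Type*} [Group G] [Fintype G] (B : Subgroup G) (s' : Finset ι) (i : ι)
    (T : ℕ) (K : ι → Subgroup G) (b : ι → G) (κ m : ι → ℕ)
    (hbi : b i ∈ B) (hb : ∀ j ∈ s', b j ∈ B)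
    (hidxi : (K i).relIndex B = κ i * m i)
    (hidx : ∀ j ∈ s', (K j).relIndex B = κ j * m j)
    (hκ : ∀ j ∈ s', κ j ≤ T)
    (hmi : ∀ p, p.Prime → p ∣ m i → T < p)
    (hm : ∀ j ∈ s', ∀ p, p.Prime → p ∣ m j → T < p)
    (hcopi : ∀ j ∈ s', Nat.Coprime (m j) (κ i * m i))
    (hcop : ∀ j ∈ s', ∀ l ∈ s', j ≠ l → Nat.Coprime (m j) (m l))
    (hdisji : ∀ j ∈ s', ∀ x ∈ B, ¬ ((b i)⁻¹ * x ∈ K i ∧ (b j)⁻¹ * x ∈ K j))
    (hdisj : ∀ j ∈ s', ∀ l ∈ s', j ≠ l → ∀ x ∈ B,
      ¬ ((b j)⁻¹ * x ∈ K j ∧ (b l)⁻¹ * x ∈ K l)) :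
    m i * Nat.card (K i ⊓ B : Subgroup G) + ∑ j ∈ s', m j * Nat.card (K j ⊓ B : Subgroup G) ≤
      Nat.card B := by
  set Kc : ι → Subgroup G := fun j => MulAut.conj (b j) • K j with hKc
  set A : Subgroup G := Kc i ⊓ B with hA
  have hAB : A ≤ B := inf_le_right
  have hmpos : ∀ j ∈ s', 0 < m j := by
    intro j hj
    rcases Nat.eq_zero_or_pos (m j) with h0 | h0
    · exfalso
      have : (K j).relIndex B ≠ 0 := Subgroup.index_ne_zero_of_finite
      apply this
      rw [hidx j hj, h0, mul_zero]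
    · exact h0
  -- the set W
  set M : Subgroup G := s'.inf K with hM
  set W : Finset G := ((fs (K i ⊓ B)) ×ˢ (fs (M ⊓ B))).image (fun z => b i * z.1 * z.2) with hW
  have hWB : W ⊆ fs B := by
    intro x hx
    simp only [hW, mem_image, mem_product, mem_fs, Subgroup.mem_inf, Prod.exists] at hx
    obtain ⟨h, μ, ⟨hh, hμ⟩, rfl⟩ := hx
    rw [mem_fs]
    exact B.mul_mem (B.mul_mem hbi hh.2) hμ.2
  -- lower bound for |W|
  have hWcard : m i * Nat.card (K i ⊓ B : Subgroup G) ≤ W.card := by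
    have hfib : ((fs (K i ⊓ B)) ×ˢ (fs (M ⊓ B))).card ≤
        Nat.card (K i ⊓ (M ⊓ B) : Subgroup G) * W.card := by
      apply Finset.card_le_mul_card_image
      intro x hx
      simp only [mem_image, mem_product, mem_fs, Prod.exists] at hx
      obtain ⟨h, μ, ⟨hh, hμ⟩, rfl⟩ := hx
      rw [← card_fs]
      apply Finset.card_le_card_of_injOn (fun z => z.2 * μ⁻¹)
      · rintro ⟨h', μ'⟩ hz
        simp only [coe_filter, mem_product, mem_fs, Set.mem_ofPred_eq] at hz
        obtain ⟨⟨hh', hμ'⟩, heq⟩ := hz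
        simp only [mem_coe, mem_fs]
        have e1 : μ' * μ⁻¹ = h'⁻¹ * h := by
          have : h' * μ' = h * μ := by
            have := heq
            simp only [mul_assoc] at this
            exact mul_left_cancel this
          calc μ' * μ⁻¹ = h'⁻¹ * (h' * μ') * μ⁻¹ := by group
            _ = h'⁻¹ * (h * μ) * μ⁻¹ := by rw [this]
            _ = h'⁻¹ * h := by group
        refine Subgroup.mem_inf.2 ⟨?_, (M ⊓ B).mul_mem hμ' ((M ⊓ B).inv_mem hμ)⟩
        rw [e1]
        exact (K i).mul_mem ((K i).inv_mem (Subgroup.mem_inf.1 hh').1) (Subgroup.mem_inf.1 hh).1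
      · rintro ⟨h1, μ1⟩ hz1 ⟨h2, μ2⟩ hz2 heq
        simp only [coe_filter, mem_product, mem_fs, Set.mem_ofPred_eq] at hz1 hz2
        have e1 : μ1 = μ2 := mul_right_cancel heq
        subst e1
        have e2 : b i * h1 * μ1 = b i * h2 * μ1 := hz1.2.trans hz2.2.symm
        have e3 : h1 = h2 := mul_left_cancel (mul_right_cancel e2)
        rw [e3]
    rw [card_product, card_fs, card_fs] at hfib
    have hrel := card_inf_mul_relIndex (K i) (M ⊓ B)
    have hdm : m i ∣ (K i).relIndex (M ⊓ B) := by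
      have hcopM : Nat.Coprime (m i) (M.relIndex B) := by
        rw [Nat.coprime_iff_gcd_eq_one]
        by_contra hne
        obtain ⟨p, hp, hpd⟩ := Nat.exists_prime_and_dvd hne
        have hp2 : p ∣ M.relIndex B := hpd.trans (Nat.gcd_dvd_right _ _)
        have hp1 : p ∣ m i := hpd.trans (Nat.gcd_dvd_left _ _)
        have hTp := hmi p hp hp1
        obtain ⟨j, hj, hpj⟩ := prime_dvd_relIndex_inf B s' T K κ m
          hidx hκ hm hcop p hp hTp hp2
        have := hcopi j hj
        exact Nat.Prime.one_lt hp |>.ne' (Nat.eq_one_of_dvd_coprimes this hpj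
          (hp1.mul_left _))
      have hdvdn : κ i * m i ∣ (K i).relIndex (M ⊓ B) * M.relIndex B := by
        rw [Subgroup.relIndex_inf_mul_relIndex, ← hidxi]
        exact Subgroup.relIndex_dvd_of_le_left B inf_le_left
      exact hcopM.dvd_of_dvd_mul_right ((Dvd.intro_left _ rfl).trans hdvdn)
    have hrelpos : 0 < (K i).relIndex (M ⊓ B) :=
      Nat.pos_of_ne_zero Subgroup.index_ne_zero_of_finite
    have hle : m i ≤ (K i).relIndex (M ⊓ B) := Nat.le_of_dvd hrelpos hdm
    have hcpos : 0 < Nat.card (K i ⊓ (M ⊓ B) : Subgroup G) := Nat.card_pos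
    rw [← hrel] at hfib
    have h3 : Nat.card (K i ⊓ (M ⊓ B) : Subgroup G) *
        (Nat.card (K i ⊓ B : Subgroup G) * (K i).relIndex (M ⊓ B)) ≤
        Nat.card (K i ⊓ (M ⊓ B) : Subgroup G) * W.card := by
      calc _ = Nat.card (K i ⊓ B : Subgroup G) *
          (Nat.card (K i ⊓ (M ⊓ B) : Subgroup G) * (K i).relIndex (M ⊓ B)) := by ring
        _ ≤ _ := hfib
    have h4 := Nat.le_of_mul_le_mul_left h3 hcpos
    calc m i * Nat.card (K i ⊓ B : Subgroup G) ≤
        (K i).relIndex (M ⊓ B) * Nat.card (K i ⊓ B : Subgroup G) := Nat.mul_le_mul_right _ hle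
      _ = Nat.card (K i ⊓ B : Subgroup G) * (K i).relIndex (M ⊓ B) := mul_comm _ _
      _ ≤ W.card := h4
  -- N vanishes on W
  have hNW : ∀ x ∈ W, ∀ j ∈ s', N A (K j) (b j) x = 0 := by
    intro x hx j hj
    simp only [hW, mem_image, mem_product, mem_fs, Prod.exists] at hx
    obtain ⟨h, μ, ⟨hh, hμ⟩, rfl⟩ := hx
    rw [N, card_eq_zero, filter_eq_empty_iff]
    intro l hl hmem
    rw [mem_fs] at hl
    have hlA : l ∈ A := hl
    have hlB : l ∈ B := hAB hl
    have hlK : (b i)⁻¹ * l * b i ∈ K i := (mem_conj_smul_iff _ _ _).1 (Subgroup.mem_inf.1 hlA).1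
    have hμK : μ ∈ K j := by
      have : M ≤ K j := Finset.inf_le hj
      exact this (Subgroup.mem_inf.1 hμ).1
    apply hdisji j hj
      (l⁻¹ * (b i * h)) (B.mul_mem (B.inv_mem hlB) (B.mul_mem hbi (Subgroup.mem_inf.1 hh).2))
    constructor
    · have : (b i)⁻¹ * (l⁻¹ * (b i * h)) = ((b i)⁻¹ * l * b i)⁻¹ * h := by group
      rw [this]
      exact (K i).mul_mem ((K i).inv_mem hlK) (Subgroup.mem_inf.1 hh).1
    · have : (b j)⁻¹ * (l⁻¹ * (b i * h)) = ((b j)⁻¹ * l⁻¹ * (b i * h * μ)) * μ⁻¹ := by group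
      rw [this]
      exact (K j).mul_mem hmem ((K j).inv_mem hμK)
  -- main bound
  have hbound : ∀ x ∈ fs B, ∑ j ∈ s', m j * N A (K j) (b j) x ≤ Nat.card A := by
    intro x hx
    rw [mem_fs] at hx
    -- the family J
    set J : Finset ι := s'.filter (fun j => ∃ l ∈ A, (b j)⁻¹ * l⁻¹ * x ∈ K j) with hJ
    have hJmem : ∀ j ∈ J, j ∈ s' ∧ ∃ l ∈ A, (b j)⁻¹ * l⁻¹ * x ∈ K j := by
      intro j hj
      rw [hJ, mem_filter] at hj
      exact hj
    choose! lam hlam using fun j (hj : j ∈ J) => (hJmem j hj).2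
    have hrel : ∀ j ∈ J, ∃ c, (Kc j).relIndex A = c * m j ∧ c ≤ T := by
      intro j hj
      have hjs := (hJmem j hj).1
      have hnj : (Kc j).relIndex B = κ j * m j := by
        rw [hKc]
        rw [relIndex_conj _ _ _ (hb j hjs), hidx j hjs]
      have hni : (Kc i).relIndex B = κ i * m i := by
        rw [hKc]
        rw [relIndex_conj _ _ _ hbi, hidxi]
      have hle : (Kc j).relIndex A ≤ κ j * m j := by
        rw [← hnj]
        exact Subgroup.relIndex_le_of_le_right hAB Subgroup.index_ne_zero_of_finite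
      have hdv : κ j * m j ∣ (Kc j).relIndex A * (κ i * m i) := by
        rw [← hni, hA, Subgroup.relIndex_inf_mul_relIndex, ← hnj]
        exact Subgroup.relIndex_dvd_of_le_left B inf_le_left
      have hmj : m j ∣ (Kc j).relIndex A :=
        (hcopi j hjs).dvd_of_dvd_mul_right ((Dvd.intro_left _ rfl).trans hdv)
      obtain ⟨c, hc⟩ := hmj
      refine ⟨c, by rw [hc, mul_comm], ?_⟩
      rw [hc, mul_comm (m j) c] at hle
      exact (Nat.le_of_mul_le_mul_right hle (hmpos j hjs)).trans (hκ j hjs)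
    choose! κ' hκ' using hrel
    have hIH := key (G := G) (Nat.card A) A rfl J T Kc lam κ' m
      (fun j hj => (hlam j hj).1)
      (fun j hj => (hκ' j hj).1)
      (fun j hj => (hκ' j hj).2)
      (fun j hj => hm j (hJmem j hj).1)
      (fun j hj l hl hjl => hcop j (hJmem j hj).1 l (hJmem l hl).1 hjl)
      (by
        intro j hj l hl hjl y hy hcon
        have hyB : y ∈ B := hAB hy
        apply hdisj j (hJmem j hj).1 l (hJmem l hl).1 hjl (y⁻¹ * x)
          (B.mul_mem (B.inv_mem hyB) hx)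
        have aux : ∀ r ∈ J, (lam r)⁻¹ * y ∈ Kc r → (b r)⁻¹ * (y⁻¹ * x) ∈ K r := by
          intro r hr hmem
          have h1 := (mem_conj_smul_iff _ _ _).1 hmem
          have h2 := (hlam r hr).2
          have h3 : (b r)⁻¹ * (y⁻¹ * x) =
              ((b r)⁻¹ * ((lam r)⁻¹ * y) * b r)⁻¹ * ((b r)⁻¹ * (lam r)⁻¹ * x) := by group
          rw [h3]
          exact (K r).mul_mem ((K r).inv_mem h1) h2
        exact ⟨aux j hj hcon.1, aux l hl hcon.2⟩)
    calc ∑ j ∈ s', m j * N A (K j) (b j) x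
        = ∑ j ∈ J, m j * N A (K j) (b j) x := by
          symm
          apply sum_subset (filter_subset _ _)
          intro j hj hjJ
          have : ¬ ∃ l ∈ A, (b j)⁻¹ * l⁻¹ * x ∈ K j := by
            intro h
            exact hjJ (mem_filter.2 ⟨hj, h⟩)
          push Not at this
          have h0 : N A (K j) (b j) x = 0 := by
            rw [N, card_eq_zero, filter_eq_empty_iff]
            intro l hl
            exact this l ((mem_fs _ _).1 hl)
          rw [h0, mul_zero]
      _ = ∑ j ∈ J, m j * Nat.card (Kc j ⊓ A : Subgroup G) := by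
          apply sum_congr rfl
          intro j hj
          rw [N_eq_of_nonempty A (K j) (b j) x (lam j) (hlam j hj).1 (hlam j hj).2]
      _ ≤ Nat.card A := hIH
  -- sum up
  have hsum : ∑ x ∈ fs B, ∑ j ∈ s', m j * N A (K j) (b j) x ≤
      Nat.card A * (Nat.card B - W.card) := by
    rw [← sum_sdiff hWB]
    have h0 : ∑ x ∈ W, ∑ j ∈ s', m j * N A (K j) (b j) x = 0 := by
      apply sum_eq_zero
      intro x hx
      apply sum_eq_zero
      intro j hj
      rw [hNW x hx j hj, mul_zero]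
    rw [h0, add_zero]
    calc ∑ x ∈ fs B \ W, ∑ j ∈ s', m j * N A (K j) (b j) x
        ≤ ∑ _x ∈ fs B \ W, Nat.card A :=
          sum_le_sum (fun x hx => hbound x (mem_sdiff.1 hx).1)
      _ = (fs B \ W).card * Nat.card A := by rw [sum_const, smul_eq_mul]
      _ = Nat.card A * (Nat.card B - W.card) := by
          rw [card_sdiff_of_subset hWB, card_fs, mul_comm]
  have hsum2 : ∑ x ∈ fs B, ∑ j ∈ s', m j * N A (K j) (b j) x =
      Nat.card A * ∑ j ∈ s', m j * Nat.card (K j ⊓ B : Subgroup G) := by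
    rw [sum_comm, mul_sum]
    apply sum_congr rfl
    intro j hj
    rw [← mul_sum, sum_N A (K j) B (b j) hAB (hb j hj)]
    ring
  rw [hsum2] at hsum
  have hfin := Nat.le_of_mul_le_mul_left hsum Nat.card_pos
  have hWle : W.card ≤ Nat.card B := by
    rw [← card_fs]
    exact card_le_card hWB
  omega

/-- The inequality with one exceptional index, for arbitrary groups. -/
theorem sum_inv_le_one_exc {G : Type*} [Group G] (s : Finset ι) (r : ι) (T : ℕ)
    (H : ι → Subgroup G) (a : ι → G) (κ m : ι → ℕ)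
    (hfir : (H r).index ≠ 0)
    (hfi : ∀ i ∈ s, (H i).index ≠ 0)
    (hidxr : (H r).index = κ r * m r)
    (hidx : ∀ i ∈ s, (H i).index = κ i * m i)
    (hκ : ∀ i ∈ s, κ i ≤ T)
    (hmr : ∀ p, p.Prime → p ∣ m r → T < p)
    (hm : ∀ i ∈ s, ∀ p, p.Prime → p ∣ m i → T < p)
    (hcopr : ∀ i ∈ s, Nat.Coprime (m i) (κ r * m r))
    (hcop : ∀ i ∈ s, ∀ j ∈ s, i ≠ j → Nat.Coprime (m i) (m j))
    (hdisjr : ∀ i ∈ s, Disjoint (a r • (H r : Set G)) (a i • (H i : Set G)))
    (hdisj : ∀ i ∈ s, ∀ j ∈ s, i ≠ j → Disjoint (a i • (H i : Set G)) (a j • (H j : Set G))) :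
    (1 : ℚ) / κ r + ∑ i ∈ s, (1 : ℚ) / κ i ≤ 1 := by
  have hI : ((insert r s).inf H).FiniteIndex := by
    have hfi' : ∀ i ∈ insert r s, (H i).index ≠ 0 := by
      intro i hi
      rw [mem_insert] at hi
      rcases hi with h | h
      · rw [h]; exact hfir
      · exact hfi i h
    refine ⟨?_⟩
    clear hidx hκ hm hcop hdisj hdisjr hcopr hmr hfi hfir hidxr
    revert hfi'
    generalize insert r s = u
    intro hfi'
    induction u using Finset.induction_on with
    | empty => simp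
    | insert l R hl ih =>
      rw [Finset.inf_insert]
      exact Subgroup.index_inf_ne_zero (hfi' l (mem_insert_self l R))
        (ih (fun i hi => hfi' i (mem_insert_of_mem hi)))
  set Nn : Subgroup G := ((insert r s).inf H).normalCore with hN
  have : Nn.FiniteIndex := Subgroup.finiteIndex_normalCore _
  have : Finite (G ⧸ Nn) := Subgroup.finite_quotient_of_finiteIndex
  cases nonempty_fintype (G ⧸ Nn)
  have hNle : ∀ i ∈ insert r s, Nn ≤ H i := fun i hi =>
    (Subgroup.normalCore_le _).trans (Finset.inf_le hi)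
  have hker : ∀ i ∈ insert r s, (QuotientGroup.mk' Nn).ker ≤ H i := by
    intro i hi
    rw [QuotientGroup.ker_mk']
    exact hNle i hi
  have aux : ∀ t ∈ insert r s, ∀ y, (QuotientGroup.mk' Nn (a t))⁻¹ * QuotientGroup.mk' Nn y ∈
      (H t).map (QuotientGroup.mk' Nn) → y ∈ a t • (H t : Set G) := by
    intro t ht y hmem
    rw [← map_inv, ← map_mul] at hmem
    have h1 : (a t)⁻¹ * y ∈ ((H t).map (QuotientGroup.mk' Nn)).comap (QuotientGroup.mk' Nn) := hmem
    rw [Subgroup.comap_map_eq_self (hker t ht)] at h1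
    rw [Set.mem_smul_set_iff_inv_smul_mem]
    exact h1
  have hidx' : ∀ t ∈ insert r s, ((H t).map (QuotientGroup.mk' Nn)).index = (H t).index := by
    intro t ht
    rw [Subgroup.index_map_eq (H t) (QuotientGroup.mk'_surjective Nn) (hker t ht)]
  have hrs : r ∈ insert r s := mem_insert_self _ _
  have hss : ∀ i ∈ s, i ∈ insert r s := fun i hi => mem_insert_of_mem hi
  have h := key_exc (G := G ⧸ Nn) ⊤ s r T (fun i => (H i).map (QuotientGroup.mk' Nn))
    (fun i => QuotientGroup.mk' Nn (a i)) κ m (Subgroup.mem_top _)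
    (fun _ _ => Subgroup.mem_top _)
    (by rw [Subgroup.relIndex_top_right, hidx' r hrs, hidxr])
    (fun i hi => by rw [Subgroup.relIndex_top_right, hidx' i (hss i hi), hidx i hi])
    hκ hmr hm hcopr hcop
    (by
      intro i hi x _ hx
      obtain ⟨y, rfl⟩ := QuotientGroup.mk'_surjective Nn x
      exact Set.disjoint_left.1 (hdisjr i hi) (aux r hrs y hx.1) (aux i (hss i hi) y hx.2))
    (by
      intro i hi j hj hij x _ hx
      obtain ⟨y, rfl⟩ := QuotientGroup.mk'_surjective Nn x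
      exact Set.disjoint_left.1 (hdisj i hi j hj hij) (aux i (hss i hi) y hx.1)
        (aux j (hss j hj) y hx.2))
  simp only [inf_top_eq, Subgroup.card_top] at h
  have hpos : (0 : ℚ) < Nat.card (G ⧸ Nn) := by exact_mod_cast Nat.card_pos
  have h2 : ∀ i ∈ insert r s, (H i).index = κ i * m i →
      ((m i * Nat.card ((H i).map (QuotientGroup.mk' Nn)) : ℕ) : ℚ) =
        (Nat.card (G ⧸ Nn) : ℚ) * (1 / κ i) := by
    intro i hi hii
    have h3 := ((H i).map (QuotientGroup.mk' Nn)).card_mul_index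
    rw [hidx' i hi, hii] at h3
    have hk : (κ i : ℚ) ≠ 0 := by
      intro h0
      have h0' : κ i = 0 := by exact_mod_cast h0
      rw [h0', zero_mul, mul_zero] at h3
      exact Nat.card_pos.ne h3
    rw [← h3]
    push_cast
    field_simp
  have h4 : ((m r * Nat.card ((H r).map (QuotientGroup.mk' Nn)) : ℕ) : ℚ) +
      ((∑ i ∈ s, m i * Nat.card ((H i).map (QuotientGroup.mk' Nn)) : ℕ) : ℚ) ≤
        Nat.card (G ⧸ Nn) := by exact_mod_cast h
  rw [Nat.cast_sum, sum_congr rfl (fun i hi => h2 i (hss i hi) (hidx i hi)), ← mul_sum,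
    h2 r hrs hidxr, ← mul_add] at h4
  have h5 : (Nat.card (G ⧸ Nn) : ℚ) * ((1 : ℚ) / κ r + ∑ i ∈ s, (1 : ℚ) / κ i) ≤
      Nat.card (G ⧸ Nn) * 1 := by rw [mul_one]; exact h4
  exact le_of_mul_le_mul_left h5 hpos

end Pool.DisjCosets
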