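import Pool.Agent.Work.MP_3175b5_al_h54.Group
import Pool.Agent.Work.MP_3175b5_al_h54.Count

/-!
# The final bounds
-/

open Finset
open scoped Pointwise

namespace Pool.DisjCosets

/-- Natural number form of the bound. -/
theorem nat_bound {G : Type*} [Group G] (k : ℕ) (a : Fin k → G) (H : Fin k → Subgroup G)
    (hfi : ∀ i, (H i).index ≠ 0)
    (hdisj : ∀ i j, i ≠ j → Disjoint (a i • (H i : Set G)) (a j • (H j : Set G)))
    (g : ℕ) (hg : 1 ≤ g) (hgcd : ∀ i j, i ≠ j → Nat.gcd (H i).index (H j).index ≤ g) :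
    k ≤ 5 * g + 4 * g * ∑ c ∈ range (Nat.log 2 g), Nat.log 2 g / (c + 1) := by
  have h := card_le_of_indep g hg (fun i => (H i).index) (univ : Finset (Fin k))
    (fun i _ => hfi i) (fun i _ j _ hij => hgcd i j hij)
    (fun I T κ m _ hidx hκ hm hcop =>
      card_le I T H a κ m (fun i _ => hfi i) hidx hκ hm hcop (fun i _ j _ hij => hdisj i j hij))
  simpa using h

/-- `∑_{c<Λ} ⌊Λ/(c+1)⌋ ≤ Λ (1 + log Λ)`. -/
theorem sum_div_le (Λ : ℕ) :
    ((∑ c ∈ range Λ, Λ / (c + 1) : ℕ) : ℝ) ≤ Λ * (1 + Real.log Λ) := by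
  have h1 : ((∑ c ∈ range Λ, Λ / (c + 1) : ℕ) : ℝ) ≤ Λ * (harmonic Λ : ℚ) := by
    rw [harmonic]
    push_cast
    rw [mul_sum]
    apply sum_le_sum
    intro c _
    refine (Nat.cast_div_le).trans ?_
    rw [div_eq_mul_inv]
    push_cast
    exact le_rfl
  exact h1.trans (mul_le_mul_of_nonneg_left (harmonic_le_one_add_log Λ) (Nat.cast_nonneg _))

/-- The main theorem. -/
theorem main {G : Type*} [Group G] (k : ℕ) (hk : 2 ≤ k) (a : Fin k → G) (H : Fin k → Subgroup G)
    (hfi : ∀ i, (H i).FiniteIndex)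
    (hdisj : ∀ i j, i ≠ j → Disjoint (a i • (H i : Set G)) (a j • (H j : Set G))) :
    ∃ i j, i < j ∧ (k : ℝ) ≤
      9 * (Nat.gcd (H i).index (H j).index : ℝ) *
        (Nat.log 2 k * (1 + Real.log (Nat.log 2 k))) := by
  have hfi' : ∀ i, (H i).index ≠ 0 := fun i => (hfi i).index_ne_zero
  -- choose a pair with maximal gcd
  obtain ⟨⟨i, j⟩, hij, hmax⟩ := Finset.exists_max_image
    ((univ : Finset (Fin k × Fin k)).filter (fun x => x.1 < x.2))
    (fun x => Nat.gcd (H x.1).index (H x.2).index)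
    ⟨(⟨0, by omega⟩, ⟨1, by omega⟩), mem_filter.2 ⟨mem_univ _, Nat.zero_lt_one⟩⟩
  rw [mem_filter] at hij
  refine ⟨i, j, hij.2, ?_⟩
  set g := Nat.gcd (H i).index (H j).index with hgdef
  have hgcd : ∀ i' j', i' ≠ j' → Nat.gcd (H i').index (H j').index ≤ g := by
    intro i' j' hne
    rcases lt_or_gt_of_ne hne with h | h
    · exact hmax (i', j') (mem_filter.2 ⟨mem_univ _, h⟩)
    · rw [Nat.gcd_comm]
      exact hmax (j', i') (mem_filter.2 ⟨mem_univ _, h⟩)
  have hg1 : 1 ≤ g := Nat.gcd_pos_of_pos_left _ (Nat.pos_of_ne_zero (hfi' i))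
  have hg2 : 2 ≤ g := by
    by_contra hlt
    have hg : g = 1 := by omega
    have h := card_le (univ : Finset (Fin k)) 1 H a (fun _ => 1) (fun i => (H i).index)
      (fun i _ => hfi' i) (fun i _ => (one_mul _).symm) (fun i _ => le_rfl)
      (fun i _ p hp _ => hp.one_lt)
      (fun i' _ j' _ hne => by
        have := hgcd i' j' hne
        have h0 : 0 < Nat.gcd (H i').index (H j').index :=
          Nat.gcd_pos_of_pos_left _ (Nat.pos_of_ne_zero (hfi' i'))
        rw [Nat.coprime_iff_gcd_eq_one]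
        omega)
      (fun i _ j _ hij => hdisj i j hij)
    simp at h
    omega
  have hnat := nat_bound k a H hfi' hdisj g hg1 hgcd
  set L := Nat.log 2 k with hL
  have hL1 : 1 ≤ L := by
    rw [hL]
    exact Nat.log_pos (by norm_num) hk
  have hL1r : (1 : ℝ) ≤ L := by exact_mod_cast hL1
  have hlog0 : 0 ≤ Real.log L := Real.log_nonneg hL1r
  have hf1 : (1 : ℝ) ≤ L * (1 + Real.log L) := by nlinarith
  have hgr : (0 : ℝ) ≤ g := Nat.cast_nonneg _
  rcases le_or_gt k g with hkg | hgk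
  · have h1 : (k : ℝ) ≤ g := by exact_mod_cast hkg
    nlinarith
  · set M := Nat.log 2 g with hM
    have hML : M ≤ L := Nat.log_mono_right hgk.le
    have hM1 : 1 ≤ M := Nat.log_pos (by norm_num) hg2
    have hM1r : (1 : ℝ) ≤ M := by exact_mod_cast hM1
    have hMLr : (M : ℝ) ≤ L := by exact_mod_cast hML
    have hlogM : Real.log M ≤ Real.log L := Real.log_le_log (by linarith) hMLr
    have h2 : (k : ℝ) ≤ 5 * g + 4 * g * ((∑ c ∈ range M, M / (c + 1) : ℕ) : ℝ) := by
      exact_mod_cast hnat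
    have h3 := sum_div_le M
    have h4 : (M : ℝ) * (1 + Real.log M) ≤ L * (1 + Real.log L) := by
      apply mul_le_mul hMLr (by linarith) _ (by linarith)
      have := Real.log_nonneg hM1r
      linarith
    have h5 := h3.trans h4
    nlinarith

end Pool.DisjCosets
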