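import Pool.Agent.Work.MP_3175b5_al_h54.SIneq

/-!
# The weighted inequality for arbitrary groups
-/

open Finset
open scoped Pointwise Classical

namespace Pool.DisjCosets

variable {ι : Type*}

/-- The inequality `∑ 1/κ_i ≤ 1` in a finite group. -/
theorem sum_inv_le_one_of_finite {G : Type*} [Group G] [Finite G] (s : Finset ι) (T : ℕ)
    (H : ι → Subgroup G) (a : ι → G) (κ m : ι → ℕ)
    (hidx : ∀ i ∈ s, (H i).index = κ i * m i)
    (hκ : ∀ i ∈ s, κ i ≤ T)
    (hm : ∀ i ∈ s, ∀ p, p.Prime → p ∣ m i → T < p)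
    (hcop : ∀ i ∈ s, ∀ j ∈ s, i ≠ j → Nat.Coprime (m i) (m j))
    (hdisj : ∀ i ∈ s, ∀ j ∈ s, i ≠ j → ∀ x, ¬ ((a i)⁻¹ * x ∈ H i ∧ (a j)⁻¹ * x ∈ H j)) :
    ∑ i ∈ s, (1 : ℚ) / κ i ≤ 1 := by
  cases nonempty_fintype G
  have h := key (G := G) (ι := ι) (Nat.card (⊤ : Subgroup G)) ⊤ rfl s T H a κ m
    (fun i _ => Subgroup.mem_top _)
    (fun i hi => by rw [Subgroup.relIndex_top_right, hidx i hi]) hκ hm hcop
    (fun i hi j hj hij x _ => hdisj i hi j hj hij x)
  simp only [inf_top_eq, Subgroup.card_top] at h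
  have hpos : (0 : ℚ) < Nat.card G := by exact_mod_cast Nat.card_pos
  have h2 : ∀ i ∈ s, ((m i * Nat.card (H i) : ℕ) : ℚ) = (Nat.card G : ℚ) * (1 / κ i) := by
    intro i hi
    have h3 := (H i).card_mul_index
    rw [hidx i hi] at h3
    have hk : (κ i : ℚ) ≠ 0 := by
      intro h0
      have h0' : κ i = 0 := by exact_mod_cast h0
      rw [h0', zero_mul, mul_zero] at h3
      exact Nat.card_pos.ne h3
    rw [← h3]
    push_cast
    field_simp
  have h4 : ((∑ i ∈ s, m i * Nat.card (H i) : ℕ) : ℚ) ≤ Nat.card G := by exact_mod_cast h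
  rw [Nat.cast_sum, sum_congr rfl h2, ← mul_sum] at h4
  have h5 : (Nat.card G : ℚ) * ∑ i ∈ s, (1 : ℚ) / κ i ≤ Nat.card G * 1 := by rw [mul_one]; exact h4
  exact le_of_mul_le_mul_left h5 hpos

/-- The inequality `∑ 1/κ_i ≤ 1` in an arbitrary group. -/
theorem sum_inv_le_one {G : Type*} [Group G] (s : Finset ι) (T : ℕ)
    (H : ι → Subgroup G) (a : ι → G) (κ m : ι → ℕ)
    (hfi : ∀ i ∈ s, (H i).index ≠ 0)
    (hidx : ∀ i ∈ s, (H i).index = κ i * m i)
    (hκ : ∀ i ∈ s, κ i ≤ T)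
    (hm : ∀ i ∈ s, ∀ p, p.Prime → p ∣ m i → T < p)
    (hcop : ∀ i ∈ s, ∀ j ∈ s, i ≠ j → Nat.Coprime (m i) (m j))
    (hdisj : ∀ i ∈ s, ∀ j ∈ s, i ≠ j → Disjoint (a i • (H i : Set G)) (a j • (H j : Set G))) :
    ∑ i ∈ s, (1 : ℚ) / κ i ≤ 1 := by
  have hI : (s.inf H).FiniteIndex := by
    refine ⟨?_⟩
    clear hidx hκ hm hcop hdisj
    induction s using Finset.induction_on with
    | empty => simp
    | insert l R hl ih =>
      rw [Finset.inf_insert]
      exact Subgroup.index_inf_ne_zero (hfi l (mem_insert_self l R))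
        (ih (fun i hi => hfi i (mem_insert_of_mem hi)))
  set N : Subgroup G := (s.inf H).normalCore with hN
  have : N.FiniteIndex := Subgroup.finiteIndex_normalCore _
  have : Finite (G ⧸ N) := Subgroup.finite_quotient_of_finiteIndex
  have hNle : ∀ i ∈ s, N ≤ H i := fun i hi =>
    (Subgroup.normalCore_le _).trans (Finset.inf_le hi)
  have hker : ∀ i ∈ s, (QuotientGroup.mk' N).ker ≤ H i := by
    intro i hi
    rw [QuotientGroup.ker_mk']
    exact hNle i hi
  apply sum_inv_le_one_of_finite (G := G ⧸ N) s T (fun i => (H i).map (QuotientGroup.mk' N))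
    (fun i => QuotientGroup.mk' N (a i)) κ m _ hκ hm hcop
  · intro i hi j hj hij x hx
    obtain ⟨y, rfl⟩ := QuotientGroup.mk'_surjective N x
    have aux : ∀ r ∈ s, (QuotientGroup.mk' N (a r))⁻¹ * QuotientGroup.mk' N y ∈
        (H r).map (QuotientGroup.mk' N) → y ∈ a r • (H r : Set G) := by
      intro r hr hmem
      rw [← map_inv, ← map_mul] at hmem
      have h1 : (a r)⁻¹ * y ∈ ((H r).map (QuotientGroup.mk' N)).comap (QuotientGroup.mk' N) := hmem
      rw [Subgroup.comap_map_eq_self (hker r hr)] at h1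
      rw [Set.mem_smul_set_iff_inv_smul_mem]
      exact h1
    exact Set.disjoint_left.1 (hdisj i hi j hj hij) (aux i hi hx.1) (aux j hj hx.2)
  · intro i hi
    rw [Subgroup.index_map_eq (H i) (QuotientGroup.mk'_surjective N) (hker i hi), hidx i hi]

/-- The cardinality form. -/
theorem card_le {G : Type*} [Group G] (s : Finset ι) (T : ℕ)
    (H : ι → Subgroup G) (a : ι → G) (κ m : ι → ℕ)
    (hfi : ∀ i ∈ s, (H i).index ≠ 0)
    (hidx : ∀ i ∈ s, (H i).index = κ i * m i)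
    (hκ : ∀ i ∈ s, κ i ≤ T)
    (hm : ∀ i ∈ s, ∀ p, p.Prime → p ∣ m i → T < p)
    (hcop : ∀ i ∈ s, ∀ j ∈ s, i ≠ j → Nat.Coprime (m i) (m j))
    (hdisj : ∀ i ∈ s, ∀ j ∈ s, i ≠ j → Disjoint (a i • (H i : Set G)) (a j • (H j : Set G))) :
    s.card ≤ T := by
  rcases s.eq_empty_or_nonempty with hs | ⟨i0, hi0⟩
  · simp [hs]
  have h := sum_inv_le_one s T H a κ m hfi hidx hκ hm hcop hdisj
  have hκpos : ∀ i ∈ s, 0 < κ i := by
    intro i hi
    rcases Nat.eq_zero_or_pos (κ i) with h0 | h0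
    · exact absurd (by rw [hidx i hi, h0, zero_mul]) (hfi i hi)
    · exact h0
  have hT : 0 < T := lt_of_lt_of_le (hκpos i0 hi0) (hκ i0 hi0)
  have h2 : ∑ _i ∈ s, (1 : ℚ) / T ≤ ∑ i ∈ s, (1 : ℚ) / κ i := by
    apply sum_le_sum
    intro i hi
    apply one_div_le_one_div_of_le
    · exact_mod_cast hκpos i hi
    · exact_mod_cast hκ i hi
  rw [sum_const, nsmul_eq_mul] at h2
  have h3 : (s.card : ℚ) * (1 / T) ≤ 1 := h2.trans h
  have hT' : (0 : ℚ) < T := by exact_mod_cast hT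
  rw [mul_one_div, div_le_one hT'] at h3
  exact_mod_cast h3

end Pool.DisjCosets
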