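import Mathlib

/-!
# Disjoint cosets: the weighted inequality

If `a_i H_i` are pairwise disjoint left cosets in a finite group, `[G : H_i] = κ_i m_i` with
`κ_i ≤ T`, all prime factors of `m_i` larger than `T`, and the `m_i` pairwise coprime, then
`∑ m_i |H_i| ≤ |G|`, i.e. `∑ 1/κ_i ≤ 1`.
-/

open Finset
open scoped Pointwise Classical

namespace Pool.DisjCosets

variable {G : Type*} [Group G]

section basics

theorem mem_conj_smul_iff (b x : G) (K : Subgroup G) :
    x ∈ MulAut.conj b • K ↔ b⁻¹ * x * b ∈ K := by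
  rw [Subgroup.mem_pointwise_smul_iff_inv_smul_mem]
  simp [MulAut.smul_def, ← map_inv, mul_assoc]

theorem card_inf_mul_relIndex (K B : Subgroup G) :
    Nat.card (K ⊓ B : Subgroup G) * K.relIndex B = Nat.card B := by
  have h := (K.subgroupOf B).card_mul_index
  have h2 : Nat.card (K.subgroupOf B) = Nat.card (K ⊓ B : Subgroup G) := by
    apply Nat.card_congr
    exact
      { toFun := fun x => ⟨x.1.1, x.2, x.1.2⟩
        invFun := fun x => ⟨⟨x.1, x.2.2⟩, x.2.1⟩
        left_inv := fun x => rfl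
        right_inv := fun x => rfl }
  rw [h2] at h
  exact h

theorem relIndex_conj (b : G) (K B : Subgroup G) (hb : b ∈ B) :
    (MulAut.conj b • K).relIndex B = K.relIndex B := by
  have h := Subgroup.relIndex_pointwise_smul (MulAut.conj b) K B
  rwa [Subgroup.conj_smul_eq_self_of_mem hb] at h

/-- The elements of a subgroup as a finset. -/
noncomputable def fs [Fintype G] (B : Subgroup G) : Finset G := univ.filter (· ∈ B)

@[simp] theorem mem_fs [Fintype G] (B : Subgroup G) (x : G) : x ∈ fs B ↔ x ∈ B := by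
  simp [fs]

theorem card_fs [Fintype G] (B : Subgroup G) : (fs B).card = Nat.card B := by
  rw [fs, Nat.card_eq_fintype_card, Fintype.card_subtype]

end basics

section arith

variable {ι : Type*}

/-- primes dividing the relative index of a finite intersection -/
theorem prime_dvd_relIndex_inf [Finite G] (B : Subgroup G) (R : Finset ι) (T : ℕ)
    (K : ι → Subgroup G) (κ m : ι → ℕ)
    (hidx : ∀ i ∈ R, (K i).relIndex B = κ i * m i)
    (hκ : ∀ i ∈ R, κ i ≤ T)
    (hm : ∀ i ∈ R, ∀ p, p.Prime → p ∣ m i → T < p)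
    (hcop : ∀ i ∈ R, ∀ j ∈ R, i ≠ j → Nat.Coprime (m i) (m j)) :
    ∀ q : ℕ, q.Prime → T < q → q ∣ (R.inf K).relIndex B → ∃ j ∈ R, q ∣ m j := by
  induction R using Finset.induction_on with
  | empty =>
    intro q hq _ hdvd
    simp at hdvd
    exact absurd hdvd hq.one_lt.ne'
  | insert l R hl ih =>
    intro q hq hTq hdvd
    have ih' := ih (fun i hi => hidx i (mem_insert_of_mem hi))
      (fun i hi => hκ i (mem_insert_of_mem hi))
      (fun i hi => hm i (mem_insert_of_mem hi))
      (fun i hi j hj hij => hcop i (mem_insert_of_mem hi) j (mem_insert_of_mem hj) hij)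
    have hl' : l ∈ insert l R := mem_insert_self l R
    rw [Finset.inf_insert, ← Subgroup.relIndex_inf_mul_relIndex] at hdvd
    rcases (Nat.Prime.dvd_mul hq).1 hdvd with h1 | h1
    · -- q divides w = (K l).relIndex (M ⊓ B)
      have hpos : (K l).relIndex B ≠ 0 := Subgroup.index_ne_zero_of_finite
      have hw : (K l).relIndex (R.inf K ⊓ B) ≤ κ l * m l := by
        rw [← hidx l hl']
        exact Subgroup.relIndex_le_of_le_right inf_le_right hpos
      have hdvdn : κ l * m l ∣ (K l).relIndex (R.inf K ⊓ B) * (R.inf K).relIndex B := by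
        rw [Subgroup.relIndex_inf_mul_relIndex, ← hidx l hl']
        exact Subgroup.relIndex_dvd_of_le_left B inf_le_left
      have hcopM : Nat.Coprime (m l) ((R.inf K).relIndex B) := by
        apply Nat.Coprime.symm
        rw [Nat.coprime_iff_gcd_eq_one]
        by_contra hne
        obtain ⟨p, hp, hpd⟩ := Nat.exists_prime_and_dvd hne
        have hp1 : p ∣ (R.inf K).relIndex B := hpd.trans (Nat.gcd_dvd_left _ _)
        have hp2 : p ∣ m l := hpd.trans (Nat.gcd_dvd_right _ _)
        have hTp := hm l hl' p hp hp2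
        obtain ⟨j, hj, hpj⟩ := ih' p hp hTp hp1
        have hne' : l ≠ j := fun h => hl (h ▸ hj)
        have := hcop l hl' j (mem_insert_of_mem hj) hne'
        exact Nat.Prime.one_lt hp |>.ne' (Nat.eq_one_of_dvd_coprimes this hp2 hpj)
      have hml : m l ∣ (K l).relIndex (R.inf K ⊓ B) :=
        hcopM.dvd_of_dvd_mul_right ((Dvd.intro_left _ rfl).trans hdvdn)
      obtain ⟨u, hu⟩ := hml
      have hmpos : 0 < m l := by
        rcases Nat.eq_zero_or_pos (m l) with h0 | h0
        · exfalso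
          apply hpos
          rw [hidx l hl', h0, mul_zero]
        · exact h0
      have hule : u ≤ κ l := by
        rw [hu, mul_comm (m l) u] at hw
        exact Nat.le_of_mul_le_mul_right hw hmpos
      have hupos : 0 < u := by
        rcases Nat.eq_zero_or_pos u with h0 | h0
        · exfalso
          rw [h0, mul_zero] at hu
          exact (Subgroup.index_ne_zero_of_finite : (K l).relIndex (R.inf K ⊓ B) ≠ 0) hu
        · exact h0
      rw [hu] at h1
      rcases (Nat.Prime.dvd_mul hq).1 h1 with h2 | h2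
      · exact ⟨l, hl', h2⟩
      · exfalso
        have := Nat.le_of_dvd hupos h2
        have := hκ l hl'
        omega
    · obtain ⟨j, hj, hqj⟩ := ih' q hq hTq h1
      exact ⟨j, mem_insert_of_mem hj, hqj⟩

end arith

section main

variable {ι : Type*} [Fintype G]

/-- `N` counts the `λ ∈ A` with `x ∈ λ b K`. -/
noncomputable def N (A K : Subgroup G) (b x : G) : ℕ :=
  ((fs A).filter (fun l => b⁻¹ * l⁻¹ * x ∈ K)).card

theorem N_eq_of_nonempty (A K : Subgroup G) (b x l0 : G) (hl0 : l0 ∈ A)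
    (h0 : b⁻¹ * l0⁻¹ * x ∈ K) :
    N A K b x = Nat.card ((MulAut.conj b • K) ⊓ A : Subgroup G) := by
  rw [N, ← card_fs]
  apply Finset.card_bij' (fun l _ => l0⁻¹ * l) (fun k _ => l0 * k)
  · intro l hl
    simp only [mem_filter, mem_fs] at hl
    rw [mem_fs]
    refine Subgroup.mem_inf.2 ⟨(mem_conj_smul_iff _ _ _).2 ?_, A.mul_mem (A.inv_mem hl0) hl.1⟩
    have : b⁻¹ * (l0⁻¹ * l) * b = (b⁻¹ * l0⁻¹ * x) * (b⁻¹ * l⁻¹ * x)⁻¹ := by group
    rw [this]
    exact K.mul_mem h0 (K.inv_mem hl.2)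
  · intro k hk
    simp only [mem_fs, Subgroup.mem_inf, mem_conj_smul_iff, mem_filter] at hk ⊢
    refine ⟨A.mul_mem hl0 hk.2, ?_⟩
    have : b⁻¹ * (l0 * k)⁻¹ * x = (b⁻¹ * k * b)⁻¹ * (b⁻¹ * l0⁻¹ * x) := by group
    rw [this]
    exact K.mul_mem (K.inv_mem hk.1) h0
  · intro l _; group
  · intro k _; group

theorem sum_N (A K B : Subgroup G) (b : G) (hAB : A ≤ B) (hb : b ∈ B) :
    ∑ x ∈ fs B, N A K b x = Nat.card A * Nat.card (K ⊓ B : Subgroup G) := by
  have h1 : ∀ x, N A K b x = ∑ l ∈ fs A, if b⁻¹ * l⁻¹ * x ∈ K then 1 else 0 := by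
    intro x
    rw [N, card_filter]
  simp_rw [h1]
  rw [sum_comm]
  have h2 : ∀ l ∈ fs A, (∑ x ∈ fs B, if b⁻¹ * l⁻¹ * x ∈ K then 1 else 0) =
      Nat.card (K ⊓ B : Subgroup G) := by
    intro l hl
    rw [← card_filter, ← card_fs]
    have hlB : l ∈ B := hAB ((mem_fs _ _).1 hl)
    apply Finset.card_bij' (fun x _ => b⁻¹ * l⁻¹ * x) (fun k _ => l * b * k)
    · intro x hx
      simp only [mem_filter, mem_fs] at hx ⊢
      exact ⟨hx.2, B.mul_mem (B.mul_mem (B.inv_mem hb) (B.inv_mem hlB)) hx.1⟩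
    · intro k hk
      simp only [mem_filter, mem_fs, Subgroup.mem_inf] at hk ⊢
      refine ⟨B.mul_mem (B.mul_mem hlB hb) hk.2, ?_⟩
      have : b⁻¹ * l⁻¹ * (l * b * k) = k := by group
      rw [this]
      exact hk.1
    · intro x _; group
    · intro k _; group
  rw [sum_congr rfl h2, sum_const, card_fs, smul_eq_mul]

/-- The key inequality, relative to a subgroup `B`. -/
theorem key (n : ℕ) : ∀ (B : Subgroup G) (_ : Nat.card B = n) (s : Finset ι) (T : ℕ)
    (K : ι → Subgroup G) (b : ι → G) (κ m : ι → ℕ)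
    (_ : ∀ i ∈ s, b i ∈ B)
    (_ : ∀ i ∈ s, (K i).relIndex B = κ i * m i)
    (_ : ∀ i ∈ s, κ i ≤ T)
    (_ : ∀ i ∈ s, ∀ p, p.Prime → p ∣ m i → T < p)
    (_ : ∀ i ∈ s, ∀ j ∈ s, i ≠ j → Nat.Coprime (m i) (m j))
    (_ : ∀ i ∈ s, ∀ j ∈ s, i ≠ j → ∀ x ∈ B, ¬ ((b i)⁻¹ * x ∈ K i ∧ (b j)⁻¹ * x ∈ K j)),
    ∑ i ∈ s, m i * Nat.card (K i ⊓ B : Subgroup G) ≤ Nat.card B := by
  induction n using Nat.strong_induction_on with
  | _ n IH =>
  intro B hBn s T K b κ m hb hidx hκ hm hcop hdisj
  rcases s.eq_empty_or_nonempty with hs | ⟨i, hi⟩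
  · simp [hs]
  set s' := s.erase i with hs'
  have hs'mem : ∀ j ∈ s', j ∈ s ∧ j ≠ i := fun j hj => ⟨(mem_erase.1 hj).2, (mem_erase.1 hj).1⟩
  set Kc : ι → Subgroup G := fun j => MulAut.conj (b j) • K j with hKc
  set A : Subgroup G := Kc i ⊓ B with hA
  have hAB : A ≤ B := inf_le_right
  have hmpos : ∀ j ∈ s, 0 < m j := by
    intro j hj
    rcases Nat.eq_zero_or_pos (m j) with h0 | h0
    · exfalso
      have : (K j).relIndex B ≠ 0 := Subgroup.index_ne_zero_of_finite
      apply this
      rw [hidx j hj, h0, mul_zero]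
    · exact h0
  have hκpos : ∀ j ∈ s, 0 < κ j := by
    intro j hj
    rcases Nat.eq_zero_or_pos (κ j) with h0 | h0
    · exfalso
      have : (K j).relIndex B ≠ 0 := Subgroup.index_ne_zero_of_finite
      apply this
      rw [hidx j hj, h0, zero_mul]
    · exact h0
  -- the set W
  set M : Subgroup G := s'.inf K with hM
  set W : Finset G := ((fs (K i ⊓ B)) ×ˢ (fs (M ⊓ B))).image (fun z => b i * z.1 * z.2) with hW
  have hWB : W ⊆ fs B := by
    intro x hx
    simp only [hW, mem_image, mem_product, mem_fs, Subgroup.mem_inf, Prod.exists] at hx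
    obtain ⟨h, μ, ⟨hh, hμ⟩, rfl⟩ := hx
    rw [mem_fs]
    exact B.mul_mem (B.mul_mem (hb i hi) hh.2) hμ.2
  -- lower bound for |W|
  have hWcard : m i * Nat.card (K i ⊓ B : Subgroup G) ≤ W.card := by
    have hfib : ((fs (K i ⊓ B)) ×ˢ (fs (M ⊓ B))).card ≤
        Nat.card (K i ⊓ (M ⊓ B) : Subgroup G) * W.card := by
      apply Finset.card_le_mul_card_image
      intro x hx
      simp only [mem_image, mem_product, mem_fs, Prod.exists] at hx
      obtain ⟨h, μ, ⟨hh, hμ⟩, rfl⟩ := hx
      rw [← card_fs]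
      apply Finset.card_le_card_of_injOn (fun z => z.2 * μ⁻¹)
      · rintro ⟨h', μ'⟩ hz
        simp only [coe_filter, mem_product, mem_fs, Set.mem_ofPred_eq] at hz
        obtain ⟨⟨hh', hμ'⟩, heq⟩ := hz
        simp only [mem_coe, mem_fs]
        have e1 : μ' * μ⁻¹ = h'⁻¹ * h := by
          have : h' * μ' = h * μ := by
            have := heq
            simp only [mul_assoc] at this
            exact mul_left_cancel this
          calc μ' * μ⁻¹ = h'⁻¹ * (h' * μ') * μ⁻¹ := by group
            _ = h'⁻¹ * (h * μ) * μ⁻¹ := by rw [this]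
            _ = h'⁻¹ * h := by group
        refine Subgroup.mem_inf.2 ⟨?_, (M ⊓ B).mul_mem hμ' ((M ⊓ B).inv_mem hμ)⟩
        rw [e1]
        exact (K i).mul_mem ((K i).inv_mem (Subgroup.mem_inf.1 hh').1) (Subgroup.mem_inf.1 hh).1
      · rintro ⟨h1, μ1⟩ hz1 ⟨h2, μ2⟩ hz2 heq
        simp only [coe_filter, mem_product, mem_fs, Set.mem_ofPred_eq] at hz1 hz2
        have e1 : μ1 = μ2 := mul_right_cancel heq
        subst e1
        have e2 : b i * h1 * μ1 = b i * h2 * μ1 := hz1.2.trans hz2.2.symm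
        have e3 : h1 = h2 := mul_left_cancel (mul_right_cancel e2)
        rw [e3]
    rw [card_product, card_fs, card_fs] at hfib
    have hrel := card_inf_mul_relIndex (K i) (M ⊓ B)
    have hdm : m i ∣ (K i).relIndex (M ⊓ B) := by
      have hcopM : Nat.Coprime (m i) (M.relIndex B) := by
        rw [Nat.coprime_iff_gcd_eq_one]
        by_contra hne
        obtain ⟨p, hp, hpd⟩ := Nat.exists_prime_and_dvd hne
        have hp2 : p ∣ M.relIndex B := hpd.trans (Nat.gcd_dvd_right _ _)
        have hp1 : p ∣ m i := hpd.trans (Nat.gcd_dvd_left _ _)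
        have hTp := hm i hi p hp hp1
        obtain ⟨j, hj, hpj⟩ := prime_dvd_relIndex_inf B s' T K κ m
          (fun j hj => hidx j (hs'mem j hj).1) (fun j hj => hκ j (hs'mem j hj).1)
          (fun j hj => hm j (hs'mem j hj).1)
          (fun j hj l hl hjl => hcop j (hs'mem j hj).1 l (hs'mem l hl).1 hjl) p hp hTp hp2
        have := hcop i hi j (hs'mem j hj).1 (fun h => (hs'mem j hj).2 h.symm)
        exact Nat.Prime.one_lt hp |>.ne' (Nat.eq_one_of_dvd_coprimes this hp1 hpj)
      have hdvdn : κ i * m i ∣ (K i).relIndex (M ⊓ B) * M.relIndex B := by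
        rw [Subgroup.relIndex_inf_mul_relIndex, ← hidx i hi]
        exact Subgroup.relIndex_dvd_of_le_left B inf_le_left
      exact hcopM.dvd_of_dvd_mul_right ((Dvd.intro_left _ rfl).trans hdvdn)
    have hrelpos : 0 < (K i).relIndex (M ⊓ B) :=
      Nat.pos_of_ne_zero Subgroup.index_ne_zero_of_finite
    have hle : m i ≤ (K i).relIndex (M ⊓ B) := Nat.le_of_dvd hrelpos hdm
    have hcpos : 0 < Nat.card (K i ⊓ (M ⊓ B) : Subgroup G) := Nat.card_pos
    rw [← hrel] at hfib
    have h3 : Nat.card (K i ⊓ (M ⊓ B) : Subgroup G) *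
        (Nat.card (K i ⊓ B : Subgroup G) * (K i).relIndex (M ⊓ B)) ≤
        Nat.card (K i ⊓ (M ⊓ B) : Subgroup G) * W.card := by
      calc _ = Nat.card (K i ⊓ B : Subgroup G) *
          (Nat.card (K i ⊓ (M ⊓ B) : Subgroup G) * (K i).relIndex (M ⊓ B)) := by ring
        _ ≤ _ := hfib
    have h4 := Nat.le_of_mul_le_mul_left h3 hcpos
    calc m i * Nat.card (K i ⊓ B : Subgroup G) ≤
        (K i).relIndex (M ⊓ B) * Nat.card (K i ⊓ B : Subgroup G) := Nat.mul_le_mul_right _ hle
      _ = Nat.card (K i ⊓ B : Subgroup G) * (K i).relIndex (M ⊓ B) := mul_comm _ _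
      _ ≤ W.card := h4
  -- N vanishes on W
  have hNW : ∀ x ∈ W, ∀ j ∈ s', N A (K j) (b j) x = 0 := by
    intro x hx j hj
    simp only [hW, mem_image, mem_product, mem_fs, Prod.exists] at hx
    obtain ⟨h, μ, ⟨hh, hμ⟩, rfl⟩ := hx
    rw [N, card_eq_zero, filter_eq_empty_iff]
    intro l hl hmem
    rw [mem_fs] at hl
    have hlA : l ∈ A := hl
    have hlB : l ∈ B := hAB hl
    have hlK : (b i)⁻¹ * l * b i ∈ K i := (mem_conj_smul_iff _ _ _).1 (Subgroup.mem_inf.1 hlA).1
    have hμK : μ ∈ K j := by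
      have : M ≤ K j := Finset.inf_le hj
      exact this (Subgroup.mem_inf.1 hμ).1
    apply hdisj i hi j (hs'mem j hj).1 (fun h => (hs'mem j hj).2 h.symm)
      (l⁻¹ * (b i * h)) (B.mul_mem (B.inv_mem hlB) (B.mul_mem (hb i hi) (Subgroup.mem_inf.1 hh).2))
    constructor
    · have : (b i)⁻¹ * (l⁻¹ * (b i * h)) = ((b i)⁻¹ * l * b i)⁻¹ * h := by group
      rw [this]
      exact (K i).mul_mem ((K i).inv_mem hlK) (Subgroup.mem_inf.1 hh).1
    · have : (b j)⁻¹ * (l⁻¹ * (b i * h)) = ((b j)⁻¹ * l⁻¹ * (b i * h * μ)) * μ⁻¹ := by group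
      rw [this]
      exact (K j).mul_mem hmem ((K j).inv_mem hμK)
  -- main bound
  have hbound : ∀ x ∈ fs B, ∑ j ∈ s', m j * N A (K j) (b j) x ≤ Nat.card A := by
    intro x hx
    rw [mem_fs] at hx
    rcases s'.eq_empty_or_nonempty with hse | ⟨j0, hj0⟩
    · rw [hse]; simp
    -- A is a proper subgroup of B
    have hlt : Nat.card A < n := by
      rw [← hBn]
      by_contra hge
      push Not at hge
      have hAeq : A = B := by
        apply SetLike.coe_injective
        apply Set.eq_of_subset_of_ncard_le (SetLike.coe_subset_coe.2 hAB)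
        · rw [← Nat.card_coe_set_eq, ← Nat.card_coe_set_eq]
          exact hge
      have hBK : ∀ y ∈ B, y ∈ K i := by
        intro y hy
        have h1 : b i * y * (b i)⁻¹ ∈ A := by
          rw [hAeq]
          exact B.mul_mem (B.mul_mem (hb i hi) hy) (B.inv_mem (hb i hi))
        have h2 := (mem_conj_smul_iff _ _ _).1 (Subgroup.mem_inf.1 h1).1
        have h3 : (b i)⁻¹ * (b i * y * (b i)⁻¹) * b i = y := by group
        rwa [h3] at h2
      apply hdisj i hi j0 (hs'mem j0 hj0).1 (fun h => (hs'mem j0 hj0).2 h.symm) (b j0)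
        (hb j0 (hs'mem j0 hj0).1)
      constructor
      · exact hBK _ (B.mul_mem (B.inv_mem (hb i hi)) (hb j0 (hs'mem j0 hj0).1))
      · simp [(K j0).one_mem]
    -- the family J
    set J : Finset ι := s'.filter (fun j => ∃ l ∈ A, (b j)⁻¹ * l⁻¹ * x ∈ K j) with hJ
    have hJmem : ∀ j ∈ J, j ∈ s ∧ j ≠ i ∧ ∃ l ∈ A, (b j)⁻¹ * l⁻¹ * x ∈ K j := by
      intro j hj
      rw [hJ, mem_filter] at hj
      exact ⟨(hs'mem j hj.1).1, (hs'mem j hj.1).2, hj.2⟩
    choose! lam hlam using fun j (hj : j ∈ J) => (hJmem j hj).2.2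
    have hrel : ∀ j ∈ J, ∃ c, (Kc j).relIndex A = c * m j ∧ c ≤ T := by
      intro j hj
      have hjs := (hJmem j hj).1
      have hji := (hJmem j hj).2.1
      have hnj : (Kc j).relIndex B = κ j * m j := by
        rw [hKc]
        rw [relIndex_conj _ _ _ (hb j hjs), hidx j hjs]
      have hni : (Kc i).relIndex B = κ i * m i := by
        rw [hKc]
        rw [relIndex_conj _ _ _ (hb i hi), hidx i hi]
      have hle : (Kc j).relIndex A ≤ κ j * m j := by
        rw [← hnj]
        exact Subgroup.relIndex_le_of_le_right hAB Subgroup.index_ne_zero_of_finite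
      have hdv : κ j * m j ∣ (Kc j).relIndex A * (κ i * m i) := by
        rw [← hni, hA, Subgroup.relIndex_inf_mul_relIndex, ← hnj]
        exact Subgroup.relIndex_dvd_of_le_left B inf_le_left
      have hcop' : Nat.Coprime (m j) (κ i * m i) := by
        apply Nat.Coprime.mul_right
        · rw [Nat.coprime_iff_gcd_eq_one]
          by_contra hne
          obtain ⟨p, hp, hpd⟩ := Nat.exists_prime_and_dvd hne
          have hp1 : p ∣ m j := hpd.trans (Nat.gcd_dvd_left _ _)
          have hp2 : p ∣ κ i := hpd.trans (Nat.gcd_dvd_right _ _)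
          have h1 := hm j hjs p hp hp1
          have h2 := Nat.le_of_dvd (hκpos i hi) hp2
          have h3 := hκ i hi
          omega
        · exact hcop j hjs i hi hji
      have hmj : m j ∣ (Kc j).relIndex A :=
        hcop'.dvd_of_dvd_mul_right ((Dvd.intro_left _ rfl).trans hdv)
      obtain ⟨c, hc⟩ := hmj
      refine ⟨c, by rw [hc, mul_comm], ?_⟩
      rw [hc, mul_comm (m j) c] at hle
      exact (Nat.le_of_mul_le_mul_right hle (hmpos j hjs)).trans (hκ j hjs)
    choose! κ' hκ' using hrel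
    have hIH := IH (Nat.card A) hlt A rfl J T Kc lam κ' m
      (fun j hj => (hlam j hj).1)
      (fun j hj => (hκ' j hj).1)
      (fun j hj => (hκ' j hj).2)
      (fun j hj => hm j (hJmem j hj).1)
      (fun j hj l hl hjl => hcop j (hJmem j hj).1 l (hJmem l hl).1 hjl)
      (by
        intro j hj l hl hjl y hy hcon
        have hyB : y ∈ B := hAB hy
        apply hdisj j (hJmem j hj).1 l (hJmem l hl).1 hjl (y⁻¹ * x)
          (B.mul_mem (B.inv_mem hyB) hx)
        have aux : ∀ r ∈ J, (lam r)⁻¹ * y ∈ Kc r → (b r)⁻¹ * (y⁻¹ * x) ∈ K r := by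
          intro r hr hmem
          have h1 := (mem_conj_smul_iff _ _ _).1 hmem
          have h2 := (hlam r hr).2
          have h3 : (b r)⁻¹ * (y⁻¹ * x) =
              ((b r)⁻¹ * ((lam r)⁻¹ * y) * b r)⁻¹ * ((b r)⁻¹ * (lam r)⁻¹ * x) := by group
          rw [h3]
          exact (K r).mul_mem ((K r).inv_mem h1) h2
        exact ⟨aux j hj hcon.1, aux l hl hcon.2⟩)
    calc ∑ j ∈ s', m j * N A (K j) (b j) x
        = ∑ j ∈ J, m j * N A (K j) (b j) x := by
          symm
          apply sum_subset (filter_subset _ _)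
          intro j hj hjJ
          have : ¬ ∃ l ∈ A, (b j)⁻¹ * l⁻¹ * x ∈ K j := by
            intro h
            exact hjJ (mem_filter.2 ⟨hj, h⟩)
          push Not at this
          have h0 : N A (K j) (b j) x = 0 := by
            rw [N, card_eq_zero, filter_eq_empty_iff]
            intro l hl
            exact this l ((mem_fs _ _).1 hl)
          rw [h0, mul_zero]
      _ = ∑ j ∈ J, m j * Nat.card (Kc j ⊓ A : Subgroup G) := by
          apply sum_congr rfl
          intro j hj
          rw [N_eq_of_nonempty A (K j) (b j) x (lam j) (hlam j hj).1 (hlam j hj).2]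
      _ ≤ Nat.card A := hIH
  -- sum up
  have hsum : ∑ x ∈ fs B, ∑ j ∈ s', m j * N A (K j) (b j) x ≤
      Nat.card A * (Nat.card B - W.card) := by
    rw [← sum_sdiff hWB]
    have h0 : ∑ x ∈ W, ∑ j ∈ s', m j * N A (K j) (b j) x = 0 := by
      apply sum_eq_zero
      intro x hx
      apply sum_eq_zero
      intro j hj
      rw [hNW x hx j hj, mul_zero]
    rw [h0, add_zero]
    calc ∑ x ∈ fs B \ W, ∑ j ∈ s', m j * N A (K j) (b j) x
        ≤ ∑ _x ∈ fs B \ W, Nat.card A :=
          sum_le_sum (fun x hx => hbound x (mem_sdiff.1 hx).1)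
      _ = (fs B \ W).card * Nat.card A := by rw [sum_const, smul_eq_mul]
      _ = Nat.card A * (Nat.card B - W.card) := by
          rw [card_sdiff_of_subset hWB, card_fs, mul_comm]
  have hsum2 : ∑ x ∈ fs B, ∑ j ∈ s', m j * N A (K j) (b j) x =
      Nat.card A * ∑ j ∈ s', m j * Nat.card (K j ⊓ B : Subgroup G) := by
    rw [sum_comm, mul_sum]
    apply sum_congr rfl
    intro j hj
    rw [← mul_sum, sum_N A (K j) B (b j) hAB (hb j (hs'mem j hj).1)]
    ring
  rw [hsum2] at hsum
  have hfin := Nat.le_of_mul_le_mul_left hsum Nat.card_pos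
  have hWle : W.card ≤ Nat.card B := by
    rw [← card_fs]
    exact card_le_card hWB
  rw [← add_sum_erase s _ hi]
  have : ∑ j ∈ s.erase i, m j * Nat.card (K j ⊓ B : Subgroup G) ≤ Nat.card B - W.card := hfin
  omega

end main

end Pool.DisjCosets
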