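import Pool.Agent.Work.MP_3175b5_al_h54.Exc

/-!
# The exact conclusion when at most one index has a large smooth part
-/

open Finset
open scoped Pointwise

namespace Pool.DisjCosets

/-- Q1 when, for all indices except at most one, the part of the index made of the primes below
`k` is less than `k`. -/
theorem small_smooth {G : Type*} [Group G] (k : ℕ) (hk : 2 ≤ k) (a : Fin k → G)
    (H : Fin k → Subgroup G) (hfi : ∀ i, (H i).FiniteIndex)
    (hdisj : ∀ i j, i ≠ j → Disjoint (a i • (H i : Set G)) (a j • (H j : Set G)))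
    (r : Fin k)
    (hsm : ∀ i, i ≠ r → ∏ p ∈ range k, p ^ ((H i).index.factorization p) < k) :
    ∃ i j, i < j ∧ k ≤ Nat.gcd (H i).index (H j).index := by
  classical
  by_contra hcon
  push Not at hcon
  have hfi' : ∀ i, (H i).index ≠ 0 := fun i => (hfi i).index_ne_zero
  have hgcd : ∀ i' j', i' ≠ j' → Nat.gcd (H i').index (H j').index < k := by
    intro i' j' hne
    rcases lt_or_gt_of_ne hne with h | h
    · exact hcon i' j' h
    · rw [Nat.gcd_comm]
      exact hcon j' i' h
  set κ : Fin k → ℕ := fun i => ∏ p ∈ range k, p ^ ((H i).index.factorization p) with hκ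
  set m : Fin k → ℕ := fun i =>
    ∏ p ∈ (H i).index.primeFactors.filter (fun p => k ≤ p), p ^ ((H i).index.factorization p)
    with hm
  have hidx : ∀ i, (H i).index = κ i * m i := by
    intro i
    have h1 : κ i = ∏ p ∈ (H i).index.primeFactors.filter (fun p => ¬ k ≤ p),
        p ^ ((H i).index.factorization p) := by
      symm
      apply prod_subset
      · intro p hp
        rw [mem_filter] at hp
        rw [mem_range]
        omega
      · intro p hp hp2
        rw [mem_range] at hp
        rw [mem_filter, not_and, not_not] at hp2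
        have h3 : p ∉ (H i).index.primeFactors := by
          intro h
          have := hp2 h
          omega
        have h4 : (H i).index.factorization p = 0 := by
          rwa [← Nat.support_factorization, Finsupp.notMem_support_iff] at h3
        rw [h4, pow_zero]
    rw [h1, mul_comm, hm]
    simp only
    rw [prod_filter_mul_prod_filter_not]
    conv_lhs => rw [← Nat.prod_factorization_pow_eq_self (hfi' i)]
    rfl
  have hκpos : ∀ i, 0 < κ i := by
    intro i
    rcases Nat.eq_zero_or_pos (κ i) with h0 | h0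
    · exact absurd (by rw [hidx i, h0, zero_mul]) (hfi' i)
    · exact h0
  have hmp : ∀ i, ∀ p, p.Prime → p ∣ m i → k ≤ p := by
    intro i p hp hpd
    rw [hm] at hpd
    obtain ⟨q, hq, hpq⟩ := (Prime.dvd_finsetProd_iff hp.prime _).1 hpd
    rw [mem_filter] at hq
    have h5 := hp.dvd_of_dvd_pow hpq
    have h6 := (Nat.prime_dvd_prime_iff_eq hp (Nat.prime_of_mem_primeFactors hq.1)).1 h5
    rw [h6]
    exact hq.2
  have hcopn : ∀ i j, i ≠ j → Nat.Coprime (m i) (H j).index := by
    intro i j hij
    rw [Nat.coprime_iff_gcd_eq_one]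
    by_contra hne
    obtain ⟨p, hp, hpd⟩ := Nat.exists_prime_and_dvd hne
    have h1 : p ∣ m i := hpd.trans (Nat.gcd_dvd_left _ _)
    have h3 : p ∣ Nat.gcd (H i).index (H j).index := by
      apply Nat.dvd_gcd
      · rw [hidx i]; exact h1.mul_left _
      · exact hpd.trans (Nat.gcd_dvd_right _ _)
    have h4 := Nat.le_of_dvd (Nat.gcd_pos_of_pos_left _ (Nat.pos_of_ne_zero (hfi' i))) h3
    have h5 := hmp i p hp h1
    have h6 := hgcd i j hij
    omega
  have hcopm : ∀ i j, i ≠ j → Nat.Coprime (m i) (m j) := by
    intro i j hij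
    exact Nat.Coprime.coprime_dvd_right ⟨κ j, by rw [hidx j, mul_comm]⟩ (hcopn i j hij)
  have hk1 : (0 : ℚ) < ((k - 1 : ℕ) : ℚ) := by
    have : 0 < k - 1 := by omega
    exact_mod_cast this
  have h := sum_inv_le_one_exc (univ.erase r) r (k - 1) H a κ m (hfi' r)
    (fun i _ => hfi' i) (hidx r) (fun i _ => hidx i)
    (fun i hi => Nat.le_sub_one_of_lt (hsm i (ne_of_mem_erase hi)))
    (fun p hp hpd => by have := hmp r p hp hpd; omega)
    (fun i _ p hp hpd => by have := hmp i p hp hpd; omega)
    (fun i hi => by rw [← hidx r]; exact hcopn i r (ne_of_mem_erase hi))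
    (fun i _ j _ hij => hcopm i j hij)
    (fun i hi => hdisj r i (ne_of_mem_erase hi).symm)
    (fun i _ j _ hij => hdisj i j hij)
  have h2 : ∑ _i ∈ univ.erase r, (1 : ℚ) / ((k - 1 : ℕ) : ℚ) ≤
      ∑ i ∈ univ.erase r, (1 : ℚ) / κ i := by
    apply sum_le_sum
    intro i hi
    apply one_div_le_one_div_of_le
    · exact_mod_cast hκpos i
    · exact_mod_cast Nat.le_sub_one_of_lt (hsm i (ne_of_mem_erase hi))
  rw [sum_const, card_erase_of_mem (mem_univ r), card_univ, Fintype.card_fin, nsmul_eq_mul,
    mul_one_div_cancel hk1.ne'] at h2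
  have h3 : (0 : ℚ) < 1 / κ r := by
    apply one_div_pos.2
    exact_mod_cast hκpos r
  linarith

end Pool.DisjCosets
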